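import Pool.Agent.H140.VR.Words

/-!
# The counting argument for words
-/

set_option autoImplicit false

namespace Pool.Agent.H140.VR

open Finset
open scoped Classical

noncomputable section

/-! ### inversion over subsets -/

theorem card_single {X Y : Type} [Fintype X] [Fintype Y] (d1 : X → Finset ℕ) (d2 : Y → Finset ℕ)
    (h : ∀ K, (univ.filter (fun x => d1 x ⊆ K)).card = (univ.filter (fun y => d2 y ⊆ K)).card) :
    ∀ K, (univ.filter (fun x => d1 x = K)).card = (univ.filter (fun y => d2 y = K)).card := by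
  intro K
  induction K using Finset.strongInduction with
  | H K ih =>
    have hX : (univ.filter (fun x => d1 x ⊆ K)).card =
        ∑ K' ∈ K.powerset, (univ.filter (fun x => d1 x = K')).card := by
      rw [Finset.card_eq_sum_card_fiberwise (f := d1) (t := K.powerset)]
      · refine Finset.sum_congr rfl fun K' hK' => ?_
        congr 1
        ext x
        simp only [mem_filter, mem_univ, true_and]
        rw [mem_powerset] at hK'
        constructor
        · exact fun h => h.2
        · exact fun h => ⟨h ▸ hK', h⟩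
      · intro x hx
        simp only [coe_filter, mem_univ, true_and, Set.mem_ofPred_eq] at hx
        simpa using hx
    have hY : (univ.filter (fun x => d2 x ⊆ K)).card =
        ∑ K' ∈ K.powerset, (univ.filter (fun x => d2 x = K')).card := by
      rw [Finset.card_eq_sum_card_fiberwise (f := d2) (t := K.powerset)]
      · refine Finset.sum_congr rfl fun K' hK' => ?_
        congr 1
        ext x
        simp only [mem_filter, mem_univ, true_and]
        rw [mem_powerset] at hK'
        constructor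
        · exact fun h => h.2
        · exact fun h => ⟨h ▸ hK', h⟩
      · intro x hx
        simp only [coe_filter, mem_univ, true_and, Set.mem_ofPred_eq] at hx
        simpa using hx
    have h1 := h K
    rw [hX, hY, ← Finset.sum_erase_add _ _ (Finset.mem_powerset_self K),
      ← Finset.sum_erase_add _ _ (Finset.mem_powerset_self K)] at h1
    have h2 : ∑ K' ∈ K.powerset.erase K, (univ.filter (fun x => d1 x = K')).card =
        ∑ K' ∈ K.powerset.erase K, (univ.filter (fun x => d2 x = K')).card := by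
      refine Finset.sum_congr rfl fun K' hK' => ih K' ?_
      rw [mem_erase, mem_powerset] at hK'
      exact lt_of_le_of_ne hK'.2 hK'.1
    omega

theorem card_pred {X Y : Type} [Finite X] [Finite Y] (d1 : X → Finset ℕ) (d2 : Y → Finset ℕ)
    (h : ∀ K, Nat.card {x // d1 x ⊆ K} = Nat.card {y // d2 y ⊆ K}) (P : Finset ℕ → Prop) :
    Nat.card {x // P (d1 x)} = Nat.card {y // P (d2 y)} := by
  have : Fintype X := Fintype.ofFinite X
  have : Fintype Y := Fintype.ofFinite Y
  have h' : ∀ K, (univ.filter (fun x => d1 x ⊆ K)).card =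
      (univ.filter (fun y => d2 y ⊆ K)).card := by
    intro K
    have := h K
    rwa [Nat.card_eq_fintype_card, Nat.card_eq_fintype_card, Fintype.card_subtype,
      Fintype.card_subtype] at this
  have h1 := card_single d1 d2 h'
  rw [Nat.card_eq_fintype_card, Nat.card_eq_fintype_card, Fintype.card_subtype,
    Fintype.card_subtype]
  set S := univ.image d1 ∪ univ.image d2 with hS
  rw [Finset.card_eq_sum_card_fiberwise (f := d1) (t := S) (by
      intro x _
      simp [hS]),
    Finset.card_eq_sum_card_fiberwise (f := d2) (t := S) (by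
      intro x _
      simp [hS])]
  refine Finset.sum_congr rfl fun K _ => ?_
  rw [Finset.filter_filter, Finset.filter_filter]
  by_cases hP : P K
  · have e1 : (univ.filter fun x => P (d1 x) ∧ d1 x = K) = univ.filter (fun x => d1 x = K) := by
      ext x
      simp only [mem_filter, mem_univ, true_and]
      exact ⟨fun h => h.2, fun h => ⟨h ▸ hP, h⟩⟩
    have e2 : (univ.filter fun x => P (d2 x) ∧ d2 x = K) = univ.filter (fun x => d2 x = K) := by
      ext x
      simp only [mem_filter, mem_univ, true_and]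
      exact ⟨fun h => h.2, fun h => ⟨h ▸ hP, h⟩⟩
    rw [e1, e2, h1]
  · have e1 : (univ.filter fun x => P (d1 x) ∧ d1 x = K) = ∅ := by
      ext x
      simp only [mem_filter, mem_univ, true_and, notMem_empty, iff_false]
      exact fun h => hP (h.2 ▸ h.1)
    have e2 : (univ.filter fun x => P (d2 x) ∧ d2 x = K) = ∅ := by
      ext x
      simp only [mem_filter, mem_univ, true_and, notMem_empty, iff_false]
      exact fun h => hP (h.2 ▸ h.1)
    rw [e1, e2]
    rfl

/-! ### words as functions on `ℕ` -/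

variable {m : ℕ}

/-- extension by zero -/
def ex (f : Fin (m + 1) → ℕ) (x : ℕ) : ℕ := if h : x < m + 1 then f ⟨x, h⟩ else 0

theorem ex_fin (f : Fin (m + 1) → ℕ) (x : Fin (m + 1)) : ex f x = f x := by
  unfold ex
  rw [dif_pos x.2]

/-- the interior descents (among the first `m` letters) -/
def dI (g : Fin (m + 1) → ℕ) : Finset ℕ := (range (m - 1)).filter (fun y => ex g (y + 1) < ex g y)

/-- the interior descents, weak at the cut `q` -/
def dQ (q : ℕ) (f : Fin (m + 1) → ℕ) : Finset ℕ :=
  (range (m - 1)).filter (fun y => ex f (y + 1) < ex f y ∨ (ex f (y + 1) = ex f y ∧ y + 1 = q))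

theorem dI_sub (g : Fin (m + 1) → ℕ) (K : Finset ℕ) :
    dI g ⊆ K ↔ ∀ y, y + 1 < m → y ∉ K → ex g y ≤ ex g (y + 1) := by
  unfold dI
  constructor
  · intro h y hy hK
    by_contra hcon
    exact hK (h (mem_filter.2 ⟨mem_range.2 (by omega), by omega⟩))
  · intro h y hy
    rw [mem_filter, mem_range] at hy
    by_contra hcon
    have := h y (by omega) hcon
    omega

theorem dQ_sub (q : ℕ) (g : Fin (m + 1) → ℕ) (K : Finset ℕ) :
    dQ q g ⊆ K ↔ ∀ y, y + 1 < m → y ∉ K → ex g y ≤ ex g (y + 1) ∧
      (y + 1 = q → ex g y < ex g (y + 1)) := by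
  unfold dQ
  constructor
  · intro h y hy hK
    have h1 : ¬ (ex g (y + 1) < ex g y ∨ (ex g (y + 1) = ex g y ∧ y + 1 = q)) := fun hcon =>
      hK (h (mem_filter.2 ⟨mem_range.2 (by omega), hcon⟩))
    push Not at h1
    refine ⟨h1.1, fun hq => ?_⟩
    rcases h1.1.lt_or_eq with h2 | h2
    · exact h2
    · exact absurd hq (h1.2 h2.symm)
  · intro h y hy
    rw [mem_filter, mem_range] at hy
    by_contra hcon
    obtain ⟨h1, h2⟩ := h y (by omega) hcon
    rcases hy.2 with h3 | ⟨h3, h4⟩
    · omega
    · have := h2 h4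
      omega

/-- the permutation which moves a letter -/
def mvPerm (p e : ℕ) (hpe : p ≤ e) (he : e < m) : Equiv.Perm (Fin (m + 1)) where
  toFun x := ⟨if (x : ℕ) < p then x else if (x : ℕ) < e then x + 1 else if (x : ℕ) = e then m else
    if (x : ℕ) < m then x else p, by split_ifs <;> omega⟩
  invFun x := ⟨if (x : ℕ) < p then x else if (x : ℕ) = p then m else if (x : ℕ) ≤ e then x - 1 else
    if (x : ℕ) < m then x else e, by split_ifs <;> omega⟩
  left_inv x := by
    apply Fin.ext
    simp only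
    split_ifs <;> omega
  right_inv x := by
    apply Fin.ext
    simp only
    split_ifs <;> omega

theorem ex_mv (p e : ℕ) (hpe : p ≤ e) (he : e < m) (f : Fin (m + 1) → ℕ) (x : ℕ) (hx : x ≤ m) :
    ex (f ∘ mvPerm p e hpe he) x = if x < p then ex f x else if x < e then ex f (x + 1) else
      if x = e then ex f m else if x < m then ex f x else ex f p := by
  have h1 : ex (f ∘ mvPerm p e hpe he) x = f (mvPerm p e hpe he ⟨x, by omega⟩) := by
    unfold ex
    rw [dif_pos (by omega : x < m + 1)]
    rfl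
  rw [h1, ← ex_fin f]
  simp only [mvPerm, Equiv.coe_fn_mk]
  split_ifs <;> rfl

theorem ex_mv_symm (p e : ℕ) (hpe : p ≤ e) (he : e < m) (f : Fin (m + 1) → ℕ) (x : ℕ)
    (hx : x ≤ m) :
    ex (f ∘ (mvPerm p e hpe he).symm) x = if x < p then ex f x else if x = p then ex f m else
      if x ≤ e then ex f (x - 1) else if x < m then ex f x else ex f e := by
  have h1 : ex (f ∘ (mvPerm p e hpe he).symm) x = f ((mvPerm p e hpe he).symm ⟨x, by omega⟩) := by
    unfold ex
    rw [dif_pos (by omega : x < m + 1)]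
    rfl
  rw [h1, ← ex_fin f]
  simp only [mvPerm, Equiv.coe_fn_symm_mk]
  split_ifs <;> rfl

/-- the end of the block of `y` -/
def nxt (m : ℕ) (K : Finset ℕ) (y : ℕ) : ℕ :=
  if h : ∃ z, y ≤ z ∧ (z ∈ K ∨ z + 1 = m) then Nat.find h else 0

theorem nxt_spec (K : Finset ℕ) (y : ℕ) (hy : y < m) :
    y ≤ nxt m K y ∧ nxt m K y < m ∧ (nxt m K y ∈ K ∨ nxt m K y + 1 = m) ∧
      ∀ z, y ≤ z → z < nxt m K y → z ∉ K := by
  have h : ∃ z, y ≤ z ∧ (z ∈ K ∨ z + 1 = m) := ⟨m - 1, by omega, Or.inr (by omega)⟩
  unfold nxt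
  rw [dif_pos h]
  refine ⟨(Nat.find_spec h).1, ?_, (Nat.find_spec h).2, ?_⟩
  · have : Nat.find h ≤ m - 1 := Nat.find_min' h ⟨by omega, Or.inr (by omega)⟩
    omega
  · intro z hz hz2 hzK
    exact Nat.find_min h hz2 ⟨hz, Or.inl hzK⟩

theorem nxt_eq (K : Finset ℕ) (y z : ℕ) (hy : y < m) (h1 : y ≤ z) (h2 : z ≤ nxt m K y) :
    nxt m K z = nxt m K y := by
  obtain ⟨a1, a2, a3, a4⟩ := nxt_spec (m := m) K y hy
  obtain ⟨b1, b2, b3, b4⟩ := nxt_spec (m := m) K z (by omega)
  rcases lt_trichotomy (nxt m K z) (nxt m K y) with h | h | h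
  · have := a4 (nxt m K z) (by omega) h
    rcases b3 with b3 | b3
    · exact absurd b3 this
    · omega
  · exact h
  · have := b4 (nxt m K y) h2 h
    rcases a3 with a3 | a3
    · exact absurd a3 this
    · omega

theorem mono_on (F : ℕ → ℕ) (K : Finset ℕ) (h : ∀ y, y + 1 < m → y ∉ K → F y ≤ F (y + 1))
    (x y : ℕ) (hxy : x ≤ y) (hy : y < m) (hK : ∀ z, x ≤ z → z < y → z ∉ K) : F x ≤ F y := by
  induction y, hxy using Nat.le_induction with
  | base => exact le_rfl
  | succ y hxy ih =>
    exact (ih (by omega) fun z h1 h2 => hK z h1 (by omega)).trans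
      (h y (by omega) (hK y hxy (by omega)))

/-- the left side: words ending with the largest letter, with a cut -/
structure PL (a : ℕ →₀ ℕ) (M : ℕ) (z : Fin (m + 1) × (Fin (m + 1) → ℕ)) : Prop where
  con : content z.2 = a
  last : ex z.2 m = M
  low : ∀ y, y < (z.1 : ℕ) → ex z.2 y < M

/-- hypothesis: `M` is the largest letter -/
def IsMax (a : ℕ →₀ ℕ) (M : ℕ) : Prop := ∀ g : Fin (m + 1) → ℕ, content g = a →
  (∀ x, ex g x ≤ M) ∧ ∃ x, x ≤ m ∧ ex g x = M

/-- the map from the left side to the right side -/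
def Phi (K : Finset ℕ) (z : Fin (m + 1) × (Fin (m + 1) → ℕ)) : Fin (m + 1) → ℕ :=
  if h : 0 < (z.1 : ℕ) then z.2 ∘ mvPerm ((z.1 : ℕ) - 1) (nxt m K ((z.1 : ℕ) - 1))
    (nxt_spec K _ (by omega)).1 (nxt_spec K _ (by omega)).2.1 else z.2

theorem phi_content (K : Finset ℕ) (z : Fin (m + 1) × (Fin (m + 1) → ℕ)) :
    content (Phi K z) = content z.2 := by
  unfold Phi
  split_ifs
  · exact content_comp _ _
  · rfl

theorem phi_good (K : Finset ℕ) (a : ℕ →₀ ℕ) (M : ℕ) (hM : IsMax (m := m) a M)
    (z : Fin (m + 1) × (Fin (m + 1) → ℕ)) (hz : PL a M z) (hK : dQ z.1 z.2 ⊆ K) :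
    dI (Phi K z) ⊆ K := by
  obtain ⟨q, f⟩ := z
  rw [dQ_sub] at hK
  rw [dI_sub]
  unfold Phi
  simp only at hK ⊢
  split_ifs with h
  · obtain ⟨p, hp⟩ : ∃ p, (q : ℕ) = p + 1 := ⟨q - 1, by omega⟩
    have hpm : p < m := by omega
    have ep : (q : ℕ) - 1 = p := by omega
    simp only [ep]
    obtain ⟨a1, a2, a3, a4⟩ := nxt_spec (m := m) K p hpm
    set e := nxt m K p with he
    have hle := (hM f hz.con).1
    have hl := hz.last
    simp only at hl
    intro y hy hyK
    rw [ex_mv _ _ _ _ _ _ (by omega), ex_mv _ _ _ _ _ _ (by omega)]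
    have h0 := hK y hy hyK
    by_cases c1 : y < p
    · rw [if_pos c1]
      by_cases c2 : y + 1 < p
      · rw [if_pos c2]
        exact h0.1
      · have c3 : y + 1 = p := by omega
        rw [if_neg c2]
        by_cases c4 : y + 1 < e
        · rw [if_pos c4]
          have h1 := hK (y + 1) (by omega) (by rw [c3]; exact a4 p le_rfl (by omega))
          exact h0.1.trans h1.1
        · rw [if_neg c4, if_pos (by omega), hl]
          exact hle _
    · rw [if_neg c1, if_neg (by omega : ¬ y + 1 < p)]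
      by_cases c2 : y < e
      · rw [if_pos c2]
        by_cases c3 : y + 1 < e
        · rw [if_pos c3]
          exact (hK (y + 1) (by omega) (a4 (y + 1) (by omega) c3)).1
        · rw [if_neg c3, if_pos (by omega), hl]
          exact hle _
      · rw [if_neg c2]
        by_cases c3 : y = e
        · exfalso
          rcases a3 with a3 | a3
          · exact hyK (c3 ▸ a3)
          · omega
        · rw [if_neg c3, if_pos (by omega), if_neg (by omega), if_neg (by omega), if_pos (by omega)]
          exact h0.1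
  · exact fun y hy hyK => (hK y hy hyK).1

theorem phi_last (K : Finset ℕ) (z : Fin (m + 1) × (Fin (m + 1) → ℕ)) (p : ℕ)
    (hp : (z.1 : ℕ) = p + 1) : ex (Phi K z) m = ex z.2 p := by
  unfold Phi
  rw [dif_pos (by omega)]
  have ep : (z.1 : ℕ) - 1 = p := by omega
  simp only [ep]
  obtain ⟨a1, a2, a3, a4⟩ := nxt_spec (m := m) K p (by omega)
  rw [ex_mv _ _ _ _ _ _ le_rfl, if_neg (by omega), if_neg (by omega), if_neg (by omega),
    if_neg (by omega)]

theorem phi_val (K : Finset ℕ) (z : Fin (m + 1) × (Fin (m + 1) → ℕ)) (p : ℕ)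
    (hp : (z.1 : ℕ) = p + 1) (x : ℕ) (hx : x ≤ m) : ex (Phi K z) x =
      if x < p then ex z.2 x else if x < nxt m K p then ex z.2 (x + 1) else
      if x = nxt m K p then ex z.2 m else if x < m then ex z.2 x else ex z.2 p := by
  unfold Phi
  rw [dif_pos (by omega)]
  have ep : (z.1 : ℕ) - 1 = p := by omega
  simp only [ep]
  exact ex_mv _ _ _ _ _ _ hx

/-- position of the end of the block of the first largest letter -/
theorem phi_end (K : Finset ℕ) (a : ℕ →₀ ℕ) (M : ℕ)
    (z : Fin (m + 1) × (Fin (m + 1) → ℕ)) (hz : PL a M z) (p : ℕ) (hp : (z.1 : ℕ) = p + 1)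
    (t : ℕ) (ht : ex (Phi K z) t = M) (htm : t ≤ m) (hmin : ∀ s, s < t → ex (Phi K z) s ≠ M) :
    nxt m K t = nxt m K p ∧ p ≤ t ∧ t ≤ nxt m K p := by
  obtain ⟨a1, a2, a3, a4⟩ := nxt_spec (m := m) K p (by omega)
  have h1 : ex (Phi K z) (nxt m K p) = M := by
    rw [phi_val K z p hp _ (by omega), if_neg (by omega), if_neg (by omega), if_pos rfl]
    exact hz.last
  have h2 : t ≤ nxt m K p := by
    by_contra hcon
    exact hmin _ (by omega) h1
  have h3 : p ≤ t := by
    by_contra hcon
    have h4 := hz.low t (by omega)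
    rw [phi_val K z p hp t htm, if_pos (by omega)] at ht
    omega
  exact ⟨nxt_eq K p t (by omega) h3 h2, h3, h2⟩

theorem phi_inj (K : Finset ℕ) (a : ℕ →₀ ℕ) (M : ℕ) (hM : IsMax (m := m) a M)
    (z z' : Fin (m + 1) × (Fin (m + 1) → ℕ)) (hz : PL a M z) (hz' : PL a M z')
    (hK : dQ z.1 z.2 ⊆ K) (hK' : dQ z'.1 z'.2 ⊆ K) (h : Phi K z = Phi K z') : z = z' := by
  -- the last letter decides whether `q = 0`
  have hlow : ∀ (z : Fin (m + 1) × (Fin (m + 1) → ℕ)), PL a M z → 0 < (z.1 : ℕ) →
      ex (Phi K z) m < M := by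
    intro z hz hq
    rw [phi_last K z ((z.1 : ℕ) - 1) (by omega)]
    exact hz.low _ (by omega)
  have hzero : ∀ (z : Fin (m + 1) × (Fin (m + 1) → ℕ)), (z.1 : ℕ) = 0 → Phi K z = z.2 := by
    intro z hq
    unfold Phi
    rw [dif_neg (by omega)]
  rcases Nat.eq_zero_or_pos (z.1 : ℕ) with hq | hq <;>
    rcases Nat.eq_zero_or_pos (z'.1 : ℕ) with hq' | hq'
  · rw [hzero z hq, hzero z' hq'] at h
    exact Prod.ext (Fin.ext (by omega)) h
  · have h1 := hlow z' hz' hq'
    rw [← h, hzero z hq, hz.last] at h1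
    omega
  · have h1 := hlow z hz hq
    rw [h, hzero z' hq', hz'.last] at h1
    omega
  · obtain ⟨p, hp⟩ : ∃ p, (z.1 : ℕ) = p + 1 := ⟨z.1 - 1, by omega⟩
    obtain ⟨p', hp'⟩ : ∃ p, (z'.1 : ℕ) = p + 1 := ⟨z'.1 - 1, by omega⟩
    have hex : ∃ t, ex (Phi K z) t = M ∧ t ≤ m := by
      obtain ⟨x, hx1, hx2⟩ := (hM (Phi K z) (by rw [phi_content]; exact hz.con)).2
      exact ⟨x, hx2, hx1⟩
    set t := Nat.find hex with ht
    have ht1 := Nat.find_spec hex
    have hmin : ∀ s, s < t → ex (Phi K z) s ≠ M := fun s hs hM' =>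
      Nat.find_min hex hs ⟨hM', by omega⟩
    obtain ⟨e1, e2, e3⟩ := phi_end K a M z hz p hp t ht1.1 ht1.2 hmin
    obtain ⟨e1', e2', e3'⟩ := phi_end K a M z' hz' p' hp' t (h ▸ ht1.1) ht1.2 (h ▸ hmin)
    have ee : nxt m K p = nxt m K p' := by rw [← e1, ← e1']
    rw [dQ_sub] at hK hK'
    -- comparison of the positions
    have key : ∀ (z z' : Fin (m + 1) × (Fin (m + 1) → ℕ)) (p p' : ℕ), PL a M z → PL a M z' →
        (z.1 : ℕ) = p + 1 → (z'.1 : ℕ) = p' + 1 → nxt m K p = nxt m K p' →
        (∀ y, y + 1 < m → y ∉ K → ex z.2 y ≤ ex z.2 (y + 1) ∧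
          (y + 1 = (z.1 : ℕ) → ex z.2 y < ex z.2 (y + 1))) →
        (∀ y, y + 1 < m → y ∉ K → ex z'.2 y ≤ ex z'.2 (y + 1) ∧
          (y + 1 = (z'.1 : ℕ) → ex z'.2 y < ex z'.2 (y + 1))) →
        Phi K z = Phi K z' → ¬ p < p' := by
      intro z z' p p' hz hz' hp hp' ee hK hK' h hlt
      obtain ⟨a1, a2, a3, a4⟩ := nxt_spec (m := m) K p (by omega)
      obtain ⟨b1, b2, b3, b4⟩ := nxt_spec (m := m) K p' (by omega)
      have h1 : ex z.2 p < ex (Phi K z) p := by
        rw [phi_val K z p hp _ (by omega), if_neg (by omega), if_pos (by omega)]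
        exact (hK p (by omega) (a4 p le_rfl (by omega))).2 (by omega)
      have h2 : ex (Phi K z') p ≤ ex z'.2 p' := by
        rw [phi_val K z' p' hp' _ (by omega), if_pos hlt]
        exact mono_on (fun y => ex z'.2 y) K (fun y h1 h2 => (hK' y h1 h2).1) p p' hlt.le (by omega)
          (fun s h1 h2 => a4 s h1 (by omega))
      have h3 := phi_last K z p hp
      have h4 := phi_last K z' p' hp'
      rw [h] at h3
      rw [h] at h1
      omega
    have hpp : p = p' := by
      rcases lt_trichotomy p p' with hlt | hlt | hlt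
      · exact absurd hlt (key z z' p p' hz hz' hp hp' ee hK hK' h)
      · exact hlt
      · exact absurd hlt (key z' z p' p hz' hz hp' hp ee.symm hK' hK h.symm)
    subst hpp
    have hq2 : z.1 = z'.1 := Fin.ext (by omega)
    obtain ⟨q, f⟩ := z
    obtain ⟨q', f'⟩ := z'
    simp only at hq2 hq
    subst hq2
    unfold Phi at h
    simp only [dif_pos hq] at h
    have h5 : f = f' := by
      funext x
      have := congrFun h ((mvPerm ((q : ℕ) - 1) (nxt m K ((q : ℕ) - 1))
        (nxt_spec K _ (by omega)).1 (nxt_spec K _ (by omega)).2.1).symm x)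
      simpa using this
    rw [h5]

theorem phi_surj (K : Finset ℕ) (a : ℕ →₀ ℕ) (M : ℕ) (hM : IsMax (m := m) a M)
    (g : Fin (m + 1) → ℕ) (hg : content g = a) (hK : dI g ⊆ K) :
    ∃ z, PL a M z ∧ dQ z.1 z.2 ⊆ K ∧ Phi K z = g := by
  obtain ⟨hle, hex0⟩ := hM g hg
  by_cases hl : ex g m = M
  · refine ⟨(0, g), ⟨hg, hl, fun y hy => absurd hy (by simp)⟩, ?_, ?_⟩
    · rw [dQ_sub]
      rw [dI_sub] at hK
      exact fun y h1 h2 => ⟨hK y h1 h2, fun h3 => absurd h3 (by simp)⟩
    · unfold Phi
      rw [dif_neg (by simp)]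
  · have hc : ex g m < M := lt_of_le_of_ne (hle _) hl
    have hex : ∃ t, ex g t = M ∧ t < m := by
      obtain ⟨x, hx1, hx2⟩ := hex0
      refine ⟨x, hx2, lt_of_le_of_ne hx1 fun h => hl (h ▸ hx2)⟩
    set t := Nat.find hex with ht
    obtain ⟨ht1, ht2⟩ := Nat.find_spec hex
    have hmin : ∀ s, s < t → ex g s ≠ M := fun s hs hM' =>
      Nat.find_min hex hs ⟨hM', by omega⟩
    rw [dI_sub] at hK
    have hex2 : ∃ p, p ≤ t ∧ (∀ z, p ≤ z → z < t → z ∉ K) ∧ ex g m < ex g p :=
      ⟨t, le_rfl, fun z h1 h2 => absurd h2 (by omega), by rw [ht1]; exact hc⟩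
    set p := Nat.find hex2 with hp
    obtain ⟨hp1, hp2, hp3⟩ := Nat.find_spec hex2
    have hp4 : ∀ s, s + 1 = p → s ∉ K → ex g s ≤ ex g m := by
      intro s hs hsK
      by_contra hcon
      refine Nat.find_min hex2 (m := s) (by omega) ⟨by omega, ?_, by omega⟩
      intro z h1 h2
      rcases Nat.lt_or_ge z p with h3 | h3
      · have : z = s := by omega
        rw [this]
        exact hsK
      · exact hp2 z h3 h2
    obtain ⟨a1, a2, a3, a4⟩ := nxt_spec (m := m) K p (by omega)
    have htn : t ≤ nxt m K p := by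
      by_contra hcon
      rcases a3 with a3 | a3
      · exact hp2 _ a1 (by omega) a3
      · omega
    set e := nxt m K p with he
    have hge : ex g e = M := by
      have h1 := mono_on (fun y => ex g y) K hK t e htn a2 (fun z h1 h2 => a4 z (by omega) h2)
      have ht1' : ex g t = M := ht1
      rw [ht1'] at h1
      exact le_antisymm (hle _) h1
    set f := g ∘ (mvPerm p e a1 a2).symm with hf
    have hfv : ∀ x, x ≤ m → ex f x = if x < p then ex g x else if x = p then ex g m else
      if x ≤ e then ex g (x - 1) else if x < m then ex g x else ex g e := fun x hx =>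
      ex_mv_symm p e a1 a2 g x hx
    refine ⟨(⟨p + 1, by omega⟩, f), ⟨?_, ?_, ?_⟩, ?_, ?_⟩
    · simp only [hf]
      rw [content_comp, hg]
    · simp only
      rw [hfv m le_rfl, if_neg (by omega), if_neg (by omega), if_neg (by omega),
        if_neg (by omega), hge]
    · simp only
      intro y hy
      rw [hfv y (by omega)]
      by_cases c1 : y < p
      · rw [if_pos c1]
        exact lt_of_le_of_ne (hle _) (hmin y (by omega))
      · rw [if_neg c1, if_pos (by omega)]
        exact hc
    · rw [dQ_sub]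
      simp only
      intro y hy hyK
      rw [hfv y (by omega), hfv (y + 1) (by omega)]
      have h0 := hK y hy hyK
      by_cases c1 : y < p
      · rw [if_pos c1]
        by_cases c2 : y + 1 < p
        · rw [if_pos c2]
          exact ⟨h0, fun h => absurd h (by omega)⟩
        · rw [if_neg c2, if_pos (by omega)]
          exact ⟨hp4 y (by omega) hyK, fun h => absurd h (by omega)⟩
      · rw [if_neg c1]
        by_cases c2 : y = p
        · have c3 : y < e := by
            by_contra hcon
            have c4 : y = e := by omega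
            rcases a3 with a3 | a3
            · exact hyK (c4 ▸ a3)
            · omega
          rw [if_pos c2, if_neg (by omega), if_neg (by omega), if_pos (by omega),
            Nat.add_sub_cancel, c2]
          exact ⟨hp3.le, fun _ => hp3⟩
        · rw [if_neg c2, if_neg (by omega : ¬ y + 1 < p), if_neg (by omega : ¬ y + 1 = p)]
          by_cases c3 : y + 1 ≤ e
          · rw [if_pos (by omega : y ≤ e), if_pos c3, Nat.add_sub_cancel]
            have h1 := hK (y - 1) (by omega) (by
              rcases Nat.lt_or_ge (y - 1) t with h1 | h1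
              · exact hp2 _ (by omega) h1
              · exact a4 _ (by omega) (by omega))
            rw [Nat.sub_add_cancel (by omega)] at h1
            exact ⟨h1, fun h => absurd h (by omega)⟩
          · by_cases c4 : y = e
            · exfalso
              rcases a3 with a3 | a3
              · exact hyK (c4 ▸ a3)
              · omega
            · rw [if_neg (by omega : ¬ y ≤ e), if_pos (by omega : y < m),
                if_neg (by omega : ¬ y + 1 ≤ e), if_pos (by omega : y + 1 < m)]
              exact ⟨h0, fun h => absurd h (by omega)⟩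
    · unfold Phi
      simp only [Nat.add_sub_cancel]
      rw [dif_pos (by omega)]
      funext x
      exact congrArg g ((mvPerm p e a1 a2).symm_apply_apply x)

/-- **the count with descents contained in `K`** -/
theorem card_sub (K : Finset ℕ) (a : ℕ →₀ ℕ) (M : ℕ) (hM : IsMax (m := m) a M) :
    Nat.card {z : Fin (m + 1) × (Fin (m + 1) → ℕ) // PL a M z ∧ dQ z.1 z.2 ⊆ K} =
      Nat.card {g : Fin (m + 1) → ℕ // content g = a ∧ dI g ⊆ K} := by
  refine Nat.card_congr (Equiv.ofBijective (fun z => ⟨Phi K z.1, by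
    rw [phi_content]; exact z.2.1.con, phi_good K a M hM z.1 z.2.1 z.2.2⟩) ⟨?_, ?_⟩)
  · intro z z' h
    simp only [Subtype.mk.injEq] at h
    exact Subtype.ext (phi_inj K a M hM z.1 z'.1 z.2.1 z'.2.1 z.2.2 z'.2.2 h)
  · rintro ⟨g, hg, hK⟩
    obtain ⟨z, h1, h2, h3⟩ := phi_surj K a M hM g hg hK
    exact ⟨⟨z, h1, h2⟩, Subtype.ext h3⟩

end

end Pool.Agent.H140.VR
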