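import Mathlib

/-!
# Definitions: quasisymmetric and Schur functions, grid classes, vertical rotations
-/

set_option autoImplicit false

namespace Pool.Agent.H140.VR

open scoped Classical

noncomputable section

/-- Formal power series with integer coefficients in the variables `x_0, x_1, …`. -/
abbrev Ser : Type := MvPowerSeries ℕ ℤ

/-- The exponent vector of the monomial `x_{i 0} x_{i 1} ⋯ x_{i (n-1)}`. -/
def content {n : ℕ} (i : Fin n → ℕ) : ℕ →₀ ℕ := ∑ j, Finsupp.single (i j) 1

/-- The set of positions `x` (the descent between the `0`-based positions `x` and `x+1`) with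
`f (x+1) < f x`. -/
def desSet {n : ℕ} {α : Type} [LT α] (f : Fin n → α) : Finset ℕ :=
  (Finset.range (n - 1)).filter (fun x => ∃ a b : Fin n, (a : ℕ) = x ∧ (b : ℕ) = x + 1 ∧ f b < f a)

/-- The fundamental quasisymmetric function: the coefficient of `x^a` is the number of sequences
`i_0 ≤ i_1 ≤ … ≤ i_(n-1)` with `i_x < i_(x+1)` whenever `x ∈ D` whose monomial is `x^a`. -/
def fundamental (n : ℕ) (D : Finset ℕ) : Ser := fun a =>
  (Nat.card {i : Fin n → ℕ // (Monotone i ∧
    ∀ j k : Fin n, (k : ℕ) = j + 1 → (j : ℕ) ∈ D → i j < i k) ∧ content i = a} : ℤ)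

/-- The quasisymmetric function of a set of permutations. -/
def quasi {n : ℕ} (A : Set (Equiv.Perm (Fin n))) : Ser :=
  ∑ π : Equiv.Perm (Fin n), if π ∈ A then fundamental n (desSet π) else 0

/-- The exponent vector of the monomial of a tableau. -/
def weight {μ : YoungDiagram} (T : SemistandardYoungTableau μ) : ℕ →₀ ℕ :=
  ∑ c ∈ μ.cells, Finsupp.single (T c.1 c.2) 1

/-- The Schur function `s_μ`: the coefficient of `x^a` is the number of semistandard Young
tableaux of shape `μ` whose monomial is `x^a`. -/
def schur (μ : YoungDiagram) : Ser :=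
  fun a => (Nat.card {T : SemistandardYoungTableau μ // weight T = a} : ℤ)

/-- Schur positivity: finite combinations of Schur functions of degree `n` with natural number
coefficients. -/
def IsSchurPositive (n : ℕ) (f : Ser) : Prop :=
  ∃ c : YoungDiagram →₀ ℕ, (∀ μ ∈ c.support, μ.card = n) ∧ f = c.sum (fun μ m => m • schur μ)

/-- The one-column grid class of `v`: there is a monotone assignment `b` of the values to the `k`
strips such that the values in the strip `i` occur from left to right in increasing order if
`v i = true` and in decreasing order if `v i = false`. -/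
def grid {k : ℕ} (v : Fin k → Bool) (n : ℕ) : Set (Equiv.Perm (Fin n)) :=
  {π | ∃ b : Fin n → Fin k, Monotone b ∧ ∀ x y : Fin n, x < y → b x = b y →
    if v (b x) = true then π.symm x < π.symm y else π.symm y < π.symm x}

/-- The set of vertical rotations `c^j π`, `c = (1,2,…,n)`, of the elements of `A`. -/
def rotations {n : ℕ} (A : Set (Equiv.Perm (Fin n))) : Set (Equiv.Perm (Fin n)) :=
  {ρ | ∃ (j : ℕ) (π : Equiv.Perm (Fin n)), π ∈ A ∧ ρ = finRotate n ^ j * π}

end

end Pool.Agent.H140.VR
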