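import Pool.Agent.H140.VR.Count

/-!
# Vertical rotations: assembly
-/

set_option autoImplicit false

namespace Pool.Agent.H140.VR

open Finset
open scoped Classical

noncomputable section

variable {m : ℕ}

theorem isMax_sup (a : ℕ →₀ ℕ) : IsMax (m := m) a (a.support.sup id) := by
  intro g hg
  have hmem : ∀ x : Fin (m + 1), g x ∈ a.support := by
    intro x
    rw [Finsupp.mem_support_iff, ← hg]
    exact (content_pos g x).ne'
  constructor
  · intro x
    unfold ex
    split_ifs with h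
    · exact Finset.le_sup (f := id) (hmem _)
    · exact Nat.zero_le _
  · obtain ⟨M, hM, hM2⟩ := Finset.exists_mem_eq_sup a.support ⟨_, hmem 0⟩ id
    rw [Finsupp.mem_support_iff, ← hg, content_apply, Finset.card_ne_zero] at hM
    obtain ⟨x, hx⟩ := hM
    rw [mem_filter] at hx
    refine ⟨x, by omega, ?_⟩
    rw [ex_fin, hx.2, hM2]
    rfl

/-- the cyclic descent set of the left side -/
def Jset (z : Fin (m + 1) × (Fin (m + 1) → ℕ)) : Set (Fin (m + 1)) :=
  {y | (y : ℕ) = m ∨ (y : ℕ) ∈ dQ z.1 z.2}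

theorem mem_cset_sort (g : Fin (m + 1) → ℕ) (x : Fin (m + 1)) :
    x ∈ cset (Tuple.sort g) ↔ (g (x + 1) < g x ∨ (g (x + 1) = g x ∧ x + 1 < x)) := by
  unfold cset
  simp only [Set.mem_ofPred_eq]
  exact sort_symm_lt g _ _

theorem lt_iff_last (x : Fin (m + 1)) (hm : 0 < m) : x + 1 < x ↔ (x : ℕ) = m := by
  rw [Fin.lt_def, Fin.val_add_one]
  by_cases h : x = Fin.last m
  · rw [if_pos h, h]
    simp
    omega
  · rw [if_neg h]
    constructor
    · intro h1
      omega
    · intro h1
      exact absurd (Fin.ext (by simpa using h1)) h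

theorem jset_iff (hm : 0 < m) (a : ℕ →₀ ℕ) (M : ℕ) (hM : IsMax (m := m) a M)
    (z : Fin (m + 1) × (Fin (m + 1) → ℕ)) (hz : PL a M z) (x : Fin (m + 1)) :
    x ∈ cset (Tuple.sort (z.2 ∘ (fun y => y + z.1))) ↔ x + z.1 ∈ Jset z := by
  obtain ⟨q, f⟩ := z
  have hle := (hM f hz.con).1
  have hl : ex f m = M := hz.last
  have hlow : ∀ y, y < (q : ℕ) → ex f y < M := hz.low
  rw [mem_cset_sort, lt_iff_last x hm]
  simp only [Function.comp_apply, Jset, Set.mem_ofPred_eq, dQ, mem_filter, mem_range]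
  set y := x + q with hy
  have e1 : x + 1 + q = y + 1 := by rw [hy]; abel
  rw [e1]
  have hyv : (y : ℕ) = if m + 1 ≤ (x : ℕ) + q then (x : ℕ) + q - (m + 1) else (x : ℕ) + q :=
    Fin.val_add_eq_ite x q
  rw [← ex_fin f (y + 1), ← ex_fin f y, Fin.val_add_one]
  have hx := x.2
  have hq := q.2
  have hy2 := y.2
  by_cases h1 : (y : ℕ) = m
  · have h2 : y = Fin.last m := Fin.ext (by simpa using h1)
    rw [if_pos h2, h1, hl]
    simp only [true_or, iff_true]
    rcases Nat.eq_zero_or_pos (q : ℕ) with h3 | h3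
    · have h4 := hle 0
      have h5 : (x : ℕ) = m := by
        split_ifs at hyv <;> omega
      rcases h4.lt_or_eq with h6 | h6
      · exact Or.inl h6
      · exact Or.inr ⟨h6, h5⟩
    · exact Or.inl (hlow 0 h3)
  · have h2 : y ≠ Fin.last m := fun h => h1 (by rw [h]; simp)
    rw [if_neg h2]
    have h3 : (x : ℕ) = m ↔ (y : ℕ) + 1 = q := by
      split_ifs at hyv <;> omega
    rw [h3]
    simp only [h1, false_or]
    by_cases h4 : (y : ℕ) + 1 = m
    · rw [h4, hl]
      constructor
      · rintro (h5 | ⟨h5, h6⟩)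
        · exact absurd (hle y) (by omega)
        · have := hlow y (by omega)
          omega
      · rintro ⟨h5, _⟩
        omega
    · constructor
      · intro h
        exact ⟨by omega, h⟩
      · exact fun h => h.2

/-- the rotation bijection -/
theorem rot_card (hm : 0 < m) (a : ℕ →₀ ℕ) (M : ℕ) (hM : IsMax (m := m) a M)
    (𝓙 : Set (Set (Fin (m + 1)))) (hinv : ∀ (J : Set (Fin (m + 1))) (s : Fin (m + 1)),
      {x | x + s ∈ J} ∈ 𝓙 ↔ J ∈ 𝓙) :
    Nat.card {z : Fin (m + 1) × (Fin (m + 1) → ℕ) // PL a M z ∧ Jset z ∈ 𝓙} =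
      Nat.card {g : Fin (m + 1) → ℕ // content g = a ∧ Tuple.sort g ∈ {ρ | cset ρ ∈ 𝓙}} := by
  have hJ : ∀ z : Fin (m + 1) × (Fin (m + 1) → ℕ), PL a M z →
      cset (Tuple.sort (z.2 ∘ (fun y => y + z.1))) = {x | x + z.1 ∈ Jset z} := by
    intro z hz
    ext x
    exact jset_iff hm a M hM z hz x
  have hcon : ∀ z : Fin (m + 1) × (Fin (m + 1) → ℕ),
      content (z.2 ∘ (fun y => y + z.1)) = content z.2 := fun z =>
    content_comp z.2 (Equiv.addRight z.1)
  refine Nat.card_congr (Equiv.ofBijective (fun z => ⟨z.1.2 ∘ (fun y => y + z.1.1), by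
    rw [hcon]; exact z.2.1.con, by
    simp only [Set.mem_ofPred_eq]
    rw [hJ z.1 z.2.1, hinv]
    exact z.2.2⟩) ⟨?_, ?_⟩)
  · rintro ⟨⟨q, f⟩, hz, hj⟩ ⟨⟨q', f'⟩, hz', hj'⟩ h
    simp only [Subtype.mk.injEq] at h
    -- comparison of the cuts
    have key : ∀ (q q' : Fin (m + 1)) (f f' : Fin (m + 1) → ℕ), PL a M (q, f) → PL a M (q', f') →
        f ∘ (fun y => y + q) = f' ∘ (fun y => y + q') → ¬ (q : ℕ) < q' := by
      intro q q' f f' hz hz' h hlt
      have h1 := congrFun h (Fin.last m - q)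
      simp only [Function.comp_apply, sub_add_cancel] at h1
      have h2 : f (Fin.last m) = M := by
        have := hz.last
        simp only at this
        rw [← this, ← ex_fin f]
        simp
      rw [h2] at h1
      have h3 : ((Fin.last m - q + q' : Fin (m + 1)) : ℕ) = q' - q - 1 := by
        have e1 : ((Fin.last m - q : Fin (m + 1)) : ℕ) = m - q := by
          rw [Fin.sub_val_of_le (Fin.le_last q)]
          simp
        rw [Fin.val_add_eq_ite, e1]
        split_ifs <;> omega
      have h4 := hz'.low (q' - q - 1) (by simp only; omega)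
      simp only at h4
      rw [← h3, ex_fin] at h4
      omega
    have hq : q = q' := by
      apply Fin.ext
      rcases lt_trichotomy (q : ℕ) q' with h1 | h1 | h1
      · exact absurd h1 (key q q' f f' hz hz' h)
      · exact h1
      · exact absurd h1 (key q' q f' f hz' hz h.symm)
    subst hq
    have hf : f = f' := by
      funext x
      have := congrFun h (x - q)
      simpa using this
    subst hf
    rfl
  · rintro ⟨g, hg, hj⟩
    obtain ⟨hle, x0, hx0, hx1⟩ := hM g hg
    have hne : (univ.filter (fun x : Fin (m + 1) => g x = M)).Nonempty :=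
      ⟨⟨x0, by omega⟩, by
        rw [mem_filter]
        refine ⟨mem_univ _, ?_⟩
        rw [← hx1, ← ex_fin g]⟩
    set xs := (univ.filter (fun x : Fin (m + 1) => g x = M)).max' hne with hxs
    have h1 : g xs = M := (mem_filter.1 (Finset.max'_mem _ hne)).2
    have h2 : ∀ x, xs < x → g x < M := by
      intro x hx
      refine lt_of_le_of_ne (by rw [← ex_fin g]; exact hle _) fun h => ?_
      exact absurd (Finset.le_max' _ x (mem_filter.2 ⟨mem_univ _, h⟩)) (not_le.2 hx)
    set q : Fin (m + 1) := Fin.last m - xs with hq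
    have hqv : (q : ℕ) = m - xs := by
      rw [hq, Fin.sub_val_of_le (Fin.le_last xs)]
      simp
    have hz : PL a M (q, g ∘ (fun y => y - q)) := by
      refine ⟨?_, ?_, ?_⟩
      · simp only
        rw [← hg]
        exact content_comp g (Equiv.subRight q)
      · simp only
        have e1 : ex (g ∘ (fun y => y - q)) m = (g ∘ (fun y => y - q)) (Fin.last m) := by
          rw [← ex_fin (g ∘ (fun y => y - q)) (Fin.last m)]
          simp
        rw [e1]
        simp only [Function.comp_apply, hq, sub_sub_cancel]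
        exact h1
      · intro y hy
        simp only at hy ⊢
        have e1 : ex (g ∘ (fun y => y - q)) y = g (⟨y, by omega⟩ - q) := by
          unfold ex
          rw [dif_pos (by omega)]
          rfl
        rw [e1]
        apply h2
        rw [Fin.lt_def]
        have h3 := xs.2
        set d : Fin (m + 1) := ⟨y, by omega⟩ - q with hd
        have h4 : ((d + q : Fin (m + 1)) : ℕ) = y := by
          rw [hd, sub_add_cancel]
        rw [Fin.val_add_eq_ite] at h4
        have h5 := d.2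
        split_ifs at h4 with h6
        · omega
        · omega
    have hback : (g ∘ (fun y => y - q)) ∘ (fun y => y + q) = g := by
      funext x
      simp
    refine ⟨⟨(q, g ∘ (fun y => y - q)), hz, ?_⟩, ?_⟩
    · have h3 := hJ _ hz
      simp only at h3
      rw [hback] at h3
      simp only [Set.mem_ofPred_eq] at hj
      rw [h3, hinv] at hj
      exact hj
    · apply Subtype.ext
      exact hback

instance finitePL (a : ℕ →₀ ℕ) (M : ℕ) :
    Finite {z : Fin (m + 1) × (Fin (m + 1) → ℕ) // PL a M z} := by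
  have : Finite {g : Fin (m + 1) → ℕ // content g = a ∧ True} := inferInstance
  refine Finite.of_injective (β := Fin (m + 1) × {g : Fin (m + 1) → ℕ // content g = a ∧ True})
    (fun z => (z.1.1, ⟨z.1.2, z.2.con, trivial⟩)) ?_
  rintro ⟨⟨q, f⟩, hz⟩ ⟨⟨q', f'⟩, hz'⟩ h
  simp only [Prod.mk.injEq, Subtype.mk.injEq] at h
  obtain ⟨rfl, rfl⟩ := h
  rfl

instance finiteCon (a : ℕ →₀ ℕ) : Finite {g : Fin (m + 1) → ℕ // content g = a} := by
  have : Finite {g : Fin (m + 1) → ℕ // content g = a ∧ True} := inferInstance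
  exact Finite.of_injective (fun g => (⟨g.1, g.2, trivial⟩ :
    {g : Fin (m + 1) → ℕ // content g = a ∧ True})) (fun g h hgh => by
      simp only [Subtype.mk.injEq] at hgh
      exact Subtype.ext hgh)

/-- **both sides have the same number of words** -/
theorem main_card (hm : 0 < m) (a : ℕ →₀ ℕ) (𝓙 : Set (Set (Fin (m + 1))))
    (hinv : ∀ (J : Set (Fin (m + 1))) (s : Fin (m + 1)), {x | x + s ∈ J} ∈ 𝓙 ↔ J ∈ 𝓙) :
    Nat.card {g : Fin (m + 1) → ℕ // content g = a ∧ Tuple.sort g ∈ {ρ | cset ρ ∈ 𝓙}} =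
      Nat.card {g : Fin (m + 1) → ℕ // content g = a ∧
        {y : Fin (m + 1) | (y : ℕ) = m ∨ (y : ℕ) ∈ dI g} ∈ 𝓙} := by
  set M := a.support.sup id with hMd
  have hM : IsMax (m := m) a M := isMax_sup a
  rw [← rot_card hm a M hM 𝓙 hinv]
  have h1 := card_pred (X := {z : Fin (m + 1) × (Fin (m + 1) → ℕ) // PL a M z})
    (Y := {g : Fin (m + 1) → ℕ // content g = a}) (fun z => dQ z.1.1 z.1.2) (fun g => dI g.1)
    (fun K => by
      have h2 := card_sub K a M hM
      rw [← Nat.card_congr (Equiv.subtypeSubtypeEquivSubtypeInter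
        (fun z : Fin (m + 1) × (Fin (m + 1) → ℕ) => PL a M z) (fun z => dQ z.1 z.2 ⊆ K)),
        ← Nat.card_congr (Equiv.subtypeSubtypeEquivSubtypeInter
        (fun g : Fin (m + 1) → ℕ => content g = a) (fun g => dI g ⊆ K))] at h2
      exact h2) (fun D => {y : Fin (m + 1) | (y : ℕ) = m ∨ (y : ℕ) ∈ D} ∈ 𝓙)
  rw [Nat.card_congr (Equiv.subtypeSubtypeEquivSubtypeInter
        (fun z : Fin (m + 1) × (Fin (m + 1) → ℕ) => PL a M z)
        (fun z => {y : Fin (m + 1) | (y : ℕ) = m ∨ (y : ℕ) ∈ dQ z.1 z.2} ∈ 𝓙)),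
    Nat.card_congr (Equiv.subtypeSubtypeEquivSubtypeInter
        (fun g : Fin (m + 1) → ℕ => content g = a)
        (fun g => {y : Fin (m + 1) | (y : ℕ) = m ∨ (y : ℕ) ∈ dI g} ∈ 𝓙))] at h1
  exact h1

theorem dI_eq (g : Fin (m + 1) → ℕ) : dI g = desSet g ∩ range (m - 1) := by
  ext y
  unfold dI desSet
  simp only [mem_filter, mem_inter, mem_range, Nat.add_sub_cancel]
  constructor
  · rintro ⟨h1, h2⟩
    refine ⟨⟨by omega, ⟨y, by omega⟩, ⟨y + 1, by omega⟩, rfl, rfl, ?_⟩, h1⟩
    rw [← ex_fin g, ← ex_fin g]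
    exact h2
  · rintro ⟨⟨_, b, c, hb, hc, h⟩, h2⟩
    refine ⟨h2, ?_⟩
    rw [← ex_fin g, ← ex_fin g, hb, hc] at h
    exact h

/-! ### Schur positivity -/

theorem sp_zero (n : ℕ) : IsSchurPositive n 0 := ⟨0, by simp, by simp⟩

theorem sp_add {n : ℕ} {f g : Ser} (hf : IsSchurPositive n f) (hg : IsSchurPositive n g) :
    IsSchurPositive n (f + g) := by
  obtain ⟨c, hc, rfl⟩ := hf
  obtain ⟨d, hd, rfl⟩ := hg
  refine ⟨c + d, ?_, ?_⟩
  · intro μ hμ
    have h1 := Finsupp.support_add hμ
    rw [mem_union] at h1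
    rcases h1 with h1 | h1
    · exact hc μ h1
    · exact hd μ h1
  · rw [Finsupp.sum_add_index']
    · intro μ
      rw [zero_smul]
    · intro μ a b
      rw [add_smul]

theorem sp_sum {n : ℕ} {ι : Type} (s : Finset ι) (f : ι → Ser)
    (h : ∀ i ∈ s, IsSchurPositive n (f i)) : IsSchurPositive n (∑ i ∈ s, f i) := by
  induction s using Finset.induction_on with
  | empty => simpa using sp_zero n
  | insert a s ha ih =>
    rw [Finset.sum_insert ha]
    exact sp_add (h a (mem_insert_self _ _)) (ih fun i hi => h i (mem_insert_of_mem hi))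

theorem desSet_sub {n : ℕ} {α : Type} [LT α] (g : Fin n → α) : desSet g ⊆ range (n - 1) := by
  intro x hx
  unfold desSet at hx
  rw [mem_filter] at hx
  exact hx.1

/-- sums of ribbon functions -/
theorem sum_word (n : ℕ) (P : Finset ℕ → Prop) (a : ℕ →₀ ℕ) :
    (Nat.card {g : Fin n → ℕ // content g = a ∧ P (desSet g)} : ℤ) =
      (∑ K ∈ (range (n - 1)).powerset.filter P, wordSer n K) a := by
  change _ = MvPowerSeries.coeff a (∑ K ∈ (range (n - 1)).powerset.filter P, wordSer n K)
  rw [map_sum]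
  change _ = ∑ K ∈ (range (n - 1)).powerset.filter P,
    (Nat.card {g : Fin n → ℕ // desSet g = K ∧ content g = a} : ℤ)
  rw [← Finset.sum_coe_sort, ← Nat.cast_sum, ← Nat.card_sigma]
  norm_cast
  refine Nat.card_congr ⟨fun g => ⟨⟨desSet g.1, ?_⟩, ⟨g.1, rfl, g.2.1⟩⟩,
    fun z => ⟨z.2.1, z.2.2.2, ?_⟩, fun g => rfl, ?_⟩
  · rw [mem_filter, mem_powerset]
    exact ⟨desSet_sub _, g.2.2⟩
  · rw [z.2.2.1]
    exact (mem_filter.1 z.1.2).2
  · rintro ⟨⟨K, hK⟩, g, h1, h2⟩
    simp only at h1
    subst h1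
    rfl

/-- **Schur positivity of the sets described by cyclic descents** -/
theorem fine_cyclic (hR : S_Ribbon) (hm : 0 < m) (𝓙 : Set (Set (Fin (m + 1))))
    (hinv : ∀ (J : Set (Fin (m + 1))) (s : Fin (m + 1)), {x | x + s ∈ J} ∈ 𝓙 ↔ J ∈ 𝓙) :
    IsSchurPositive (m + 1) (quasi {ρ | cset ρ ∈ 𝓙}) := by
  set P : Finset ℕ → Prop := fun D =>
    {y : Fin (m + 1) | (y : ℕ) = m ∨ (y : ℕ) ∈ D ∩ range (m - 1)} ∈ 𝓙 with hP
  have h : quasi {ρ | cset ρ ∈ 𝓙} =
      ∑ K ∈ (range (m + 1 - 1)).powerset.filter P, wordSer (m + 1) K := by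
    funext a
    rw [← sum_word (m + 1) P a, quasi_apply, main_card hm a 𝓙 hinv]
    simp only [dI_eq, hP]
  rw [h]
  exact sp_sum _ _ fun K _ => hR _ _

/-- **the theorem, given the positivity of ribbon functions** -/
theorem fine (hR : S_Ribbon) {k : ℕ} (v : Fin k → Bool) (n : ℕ) (hn : 1 ≤ n) :
    IsSchurPositive n (quasi (rotations (grid v n))) := by
  obtain ⟨m, rfl⟩ : ∃ m, n = m + 1 := ⟨n - 1, by omega⟩
  rcases Nat.eq_zero_or_pos m with rfl | hm
  · have hsub : Subsingleton (Equiv.Perm (Fin (0 + 1))) :=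
      inferInstanceAs (Subsingleton (Equiv.Perm (Fin 1)))
    set A := rotations (grid v (0 + 1)) with hA
    by_cases h1 : (1 : Equiv.Perm (Fin (0 + 1))) ∈ A
    · have h : ∀ P : Finset ℕ → Prop, (∀ K, P K) →
          quasi A = ∑ K ∈ (range (0 + 1 - 1)).powerset.filter P, wordSer (0 + 1) K := by
        intro P hP
        funext a
        rw [← sum_word (0 + 1) P a, quasi_apply]
        congr 1
        refine Nat.card_congr (Equiv.subtypeEquivRight fun g => ?_)
        rw [hsub.elim (Tuple.sort g) 1]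
        simp [h1, hP]
      rw [h (fun _ => True) (fun _ => trivial)]
      exact sp_sum _ _ fun K _ => hR _ _
    · have h : quasi A = 0 := by
        funext a
        rw [quasi_apply]
        have : IsEmpty {g : Fin (0 + 1) → ℕ // content g = a ∧ Tuple.sort g ∈ A} := by
          constructor
          rintro ⟨g, _, h2⟩
          rw [hsub.elim (Tuple.sort g) 1] at h2
          exact h1 h2
        rw [Nat.card_of_isEmpty]
        rfl
      rw [h]
      exact sp_zero _
  · rw [rotations_grid]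
    exact fine_cyclic hR hm _ fun J s => JG_shift v J s

end

end Pool.Agent.H140.VR
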