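import Mathlib

/-!
# Row insertion for chains of partitions

A semistandard tableau is encoded by the chain `L : ℕ → ℕ → ℕ`, `L i r` = number of entries `< i`
in the row `r`.
-/

set_option autoImplicit false

namespace Pool.Agent.H140.VR

/-- chains -/
abbrev Ch : Type := ℕ → ℕ → ℕ

/-- the insertion path: `0` = not started, `p + 1` = new box in the row `p`. -/
def path (L : Ch) (x : ℕ) : ℕ → ℕ
  | 0 => 0
  | i + 1 => if path L x i = 0 then (if i = x then 1 else 0)
      else if L (i + 1) (path L x i - 1) = L i (path L x i - 1) then path L x i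
      else path L x i + 1

/-- insertion of the letter `x` -/
def step (L : Ch) (x : ℕ) : Ch := fun i r => L i r + if path L x i = r + 1 then 1 else 0

/-- semistandard chains, entries `< N` -/
structure Good (N : ℕ) (L : Ch) : Prop where
  zero : ∀ r, L 0 r = 0
  mono : ∀ i r, L i r ≤ L (i + 1) r
  strip : ∀ i r, L (i + 1) (r + 1) ≤ L i r
  stab : ∀ i, N ≤ i → ∀ r, L i r = L N r

section path

variable (L : Ch) (x : ℕ)

theorem path_0 : path L x 0 = 0 := rfl

theorem path_s (i : ℕ) : path L x (i + 1) = if path L x i = 0 then (if i = x then 1 else 0)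
      else if L (i + 1) (path L x i - 1) = L i (path L x i - 1) then path L x i
      else path L x i + 1 := rfl

theorem path_s0 (i : ℕ) (h : path L x i = 0) : path L x (i + 1) = if i = x then 1 else 0 := by
  rw [path_s, if_pos h]

theorem path_s1 (i p : ℕ) (h : path L x i = p + 1) (h2 : L (i + 1) p = L i p) :
    path L x (i + 1) = p + 1 := by
  rw [path_s, if_neg (by omega), h, if_pos (by simpa using h2)]

theorem path_s2 (i p : ℕ) (h : path L x i = p + 1) (h2 : L (i + 1) p ≠ L i p) :
    path L x (i + 1) = p + 2 := by
  rw [path_s, if_neg (by omega), h, if_neg (by simpa using h2)]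

theorem path_zero (i : ℕ) (h : i ≤ x) : path L x i = 0 := by
  induction i with
  | zero => rfl
  | succ i ih =>
    rw [path_s0 L x i (ih (by omega)), if_neg (by omega)]

theorem path_mono (i : ℕ) : path L x i ≤ path L x (i + 1) := by
  rcases Nat.eq_zero_or_pos (path L x i) with h | h
  · omega
  · obtain ⟨p, hp⟩ : ∃ p, path L x i = p + 1 := ⟨path L x i - 1, by omega⟩
    by_cases h2 : L (i + 1) p = L i p
    · rw [path_s1 L x i p hp h2, hp]
    · rw [path_s2 L x i p hp h2, hp]
      omega

theorem path_pos (i : ℕ) (h : x < i) : 0 < path L x i := by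
  induction i with
  | zero => omega
  | succ i ih =>
    rcases Nat.lt_or_ge x i with h1 | h1
    · exact lt_of_lt_of_le (ih h1) (path_mono L x i)
    · have : i = x := by omega
      rw [path_s0 L x i (path_zero L x i (by omega)), if_pos this]
      omega

theorem path_eq_zero (i : ℕ) : path L x i = 0 ↔ i ≤ x := by
  constructor
  · intro h
    by_contra h1
    have := path_pos L x i (by omega)
    omega
  · exact path_zero L x i

theorem path_le (i : ℕ) : path L x (i + 1) ≤ path L x i + 1 := by
  rcases Nat.eq_zero_or_pos (path L x i) with h | h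
  · rw [path_s0 L x i h]
    split_ifs <;> omega
  · obtain ⟨p, hp⟩ : ∃ p, path L x i = p + 1 := ⟨path L x i - 1, by omega⟩
    by_cases h2 : L (i + 1) p = L i p
    · rw [path_s1 L x i p hp h2, hp]
      omega
    · rw [path_s2 L x i p hp h2, hp]

end path

theorem step_eq (L : Ch) (x i r : ℕ) (h : path L x i = r + 1) : step L x i r = L i r + 1 := by
  unfold step
  rw [if_pos h]

theorem step_ne (L : Ch) (x i r : ℕ) (h : path L x i ≠ r + 1) : step L x i r = L i r := by
  unfold step
  rw [if_neg h, add_zero]

theorem add_inv {N : ℕ} {L : Ch} (hL : Good N L) (x i p : ℕ) (h : path L x i = p + 2) :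
    L i (p + 1) < L i p := by
  induction i generalizing p with
  | zero =>
    rw [path_0] at h
    omega
  | succ i ih =>
    rcases Nat.eq_zero_or_pos (path L x i) with h0 | h0
    · rw [path_s0 L x i h0] at h
      split_ifs at h <;> omega
    · obtain ⟨q, hq⟩ : ∃ q, path L x i = q + 1 := ⟨path L x i - 1, by omega⟩
      by_cases h2 : L (i + 1) q = L i q
      · rw [path_s1 L x i q hq h2] at h
        have hqp : q = p + 1 := by omega
        subst hqp
        have h3 := ih p (by omega)
        have h4 := hL.mono i p
        omega
      · rw [path_s2 L x i q hq h2] at h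
        have hqp : q = p := by omega
        subst hqp
        have h3 := hL.mono i q
        have h4 := hL.strip i q
        omega

theorem good_step {N : ℕ} {L : Ch} (hL : Good N L) (x : ℕ) (hx : x < N) : Good N (step L x) := by
  refine ⟨fun r => ?_, fun i r => ?_, fun i r => ?_, fun i hi r => ?_⟩
  · rw [step_ne L x 0 r (by rw [path_0]; omega), hL.zero]
  · by_cases h : path L x i = r + 1
    · rw [step_eq L x i r h]
      by_cases h2 : L (i + 1) r = L i r
      · rw [step_eq L x (i + 1) r (path_s1 L x i r h h2)]
        omega
      · have h3 := hL.mono i r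
        have h4 : L (i + 1) r ≤ step L x (i + 1) r := Nat.le_add_right _ _
        omega
    · rw [step_ne L x i r h]
      exact le_trans (hL.mono i r) (Nat.le_add_right _ _)
  · by_cases h : path L x (i + 1) = r + 2
    · rw [step_eq L x (i + 1) (r + 1) h]
      have h3 := path_le L x i
      have h4 := path_mono L x i
      rcases Nat.lt_or_ge (path L x i) (r + 2) with h5 | h5
      · rw [step_eq L x i r (by omega)]
        have := hL.strip i r
        omega
      · have h6 : path L x i = r + 2 := by omega
        have h7 := add_inv hL x i r h6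
        have h8 : L (i + 1) (r + 1) = L i (r + 1) := by
          by_contra h9
          rw [path_s2 L x i (r + 1) h6 h9] at h
          omega
        have h10 : L i r ≤ step L x i r := Nat.le_add_right _ _
        omega
    · rw [step_ne L x (i + 1) (r + 1) h]
      exact le_trans (hL.strip i r) (Nat.le_add_right _ _)
  · have h : ∀ i, N ≤ i → path L x i = path L x N := by
      intro i hi
      induction i, hi using Nat.le_induction with
      | base => rfl
      | succ i hi ih =>
        obtain ⟨q, hq⟩ : ∃ q, path L x i = q + 1 :=
          ⟨path L x i - 1, by have := path_pos L x i (by omega); omega⟩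
        rw [← ih, hq]
        exact path_s1 L x i q hq (by rw [hL.stab (i + 1) (by omega), hL.stab i hi])
    unfold step
    rw [h i hi, hL.stab i hi]

/-! ### Injectivity -/

theorem back_one {N : ℕ} {L : Ch} (hL : Good N L) (x i : ℕ) :
    path L x i = if path L x (i + 1) ≠ 0 ∧
      step L x (i + 1) (path L x (i + 1) - 1) ≠ step L x i (path L x (i + 1) - 1)
      then path L x (i + 1) - 1 else path L x (i + 1) := by
  rcases Nat.eq_zero_or_pos (path L x i) with h0 | h0
  · by_cases h1 : i = x
    · have h2 : path L x (i + 1) = 0 + 1 := by rw [path_s0 L x i h0, if_pos h1]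
      have h3 := step_eq L x (i + 1) 0 h2
      have h4 := step_ne L x i 0 (by omega)
      have h5 := hL.mono i 0
      rw [h2, if_pos ⟨by omega, by simp only [Nat.add_sub_cancel]; omega⟩, h0]
    · have h2 : path L x (i + 1) = 0 := by rw [path_s0 L x i h0, if_neg h1]
      rw [h2, if_neg (by simp), h0]
  · obtain ⟨q, hq⟩ : ∃ q, path L x i = q + 1 := ⟨path L x i - 1, by omega⟩
    by_cases h2 : L (i + 1) q = L i q
    · have h1 := path_s1 L x i q hq h2
      have h3 := step_eq L x (i + 1) q h1
      have h4 := step_eq L x i q hq
      rw [h1, if_neg (by simp only [Nat.add_sub_cancel]; omega), hq]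
    · have h1 : path L x (i + 1) = (q + 1) + 1 := path_s2 L x i q hq h2
      have h3 := step_eq L x (i + 1) (q + 1) h1
      have h4 := step_ne L x i (q + 1) (by omega)
      have h5 := hL.mono i (q + 1)
      rw [h1, if_pos ⟨by omega, by simp only [Nat.add_sub_cancel]; omega⟩, hq]
      omega

theorem step_inj {N : ℕ} {L L' : Ch} (hL : Good N L) (hL' : Good N L') (x x' : ℕ) (hx : x < N)
    (hx' : x' < N) (h : step L x = step L' x') (hp : path L x N = path L' x' N) :
    x = x' ∧ L = L' := by
  have key : ∀ k, k ≤ N → path L x (N - k) = path L' x' (N - k) := by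
    intro k
    induction k with
    | zero => intro _; simpa using hp
    | succ k ih =>
      intro hk
      have h1 := ih (by omega)
      obtain ⟨i, hi⟩ : ∃ i, N - (k + 1) = i := ⟨_, rfl⟩
      have h2 : N - k = i + 1 := by omega
      rw [hi]
      rw [h2] at h1
      rw [back_one hL x i, back_one hL' x' i, h1, h]
  have key2 : ∀ i, i ≤ N → path L x i = path L' x' i := by
    intro i hi
    have := key (N - i) (by omega)
    rwa [show N - (N - i) = i by omega] at this
  have hxx : x = x' := by
    have h1 := key2 x (by omega)
    have h2 := key2 x' (by omega)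
    rw [path_zero L x x le_rfl] at h1
    rw [path_zero L' x' x' le_rfl] at h2
    have h3 := (path_eq_zero L' x' x).1 h1.symm
    have h4 := (path_eq_zero L x x').1 h2
    omega
  have hN : ∀ i, i ≤ N → ∀ r, L i r = L' i r := by
    intro i hi r
    have h1 : step L x i r = step L' x' i r := by rw [h]
    unfold step at h1
    rw [key2 i hi] at h1
    omega
  refine ⟨hxx, ?_⟩
  funext i r
  rcases Nat.lt_or_ge i N with h1 | h1
  · exact hN i h1.le r
  · rw [hL.stab i h1, hL'.stab i h1, hN N le_rfl]

/-! ### Surjectivity -/

/-- the backward path, by distance from the level `N` -/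
def back (M : Ch) (N p : ℕ) : ℕ → ℕ
  | 0 => p
  | k + 1 => if back M N p k ≠ 0 ∧
      M (N - k) (back M N p k - 1) ≠ M (N - k - 1) (back M N p k - 1)
      then back M N p k - 1 else back M N p k

theorem step_surj {N : ℕ} {M : Ch} (hM : Good N M) (p : ℕ) (hp : M N (p + 1) < M N p) :
    ∃ (x : ℕ) (L : Ch), x < N ∧ Good N L ∧ step L x = M ∧ path L x N = p + 1 := by
  obtain ⟨B, hB⟩ : ∃ B : ℕ → ℕ, B = fun i => back M N (p + 1) (N - i) := ⟨_, rfl⟩
  have hBN : ∀ i, N ≤ i → B i = p + 1 := by
    intro i hi
    rw [hB]
    simp only
    rw [show N - i = 0 by omega]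
    rfl
  -- the one step formula
  have hBs : ∀ i, B i = if B (i + 1) ≠ 0 ∧ M (i + 1) (B (i + 1) - 1) ≠ M i (B (i + 1) - 1)
      then B (i + 1) - 1 else B (i + 1) := by
    intro i
    rcases Nat.lt_or_ge i N with h | h
    · have h1 : N - i = (N - (i + 1)) + 1 := by omega
      have h2 : B i = back M N (p + 1) ((N - (i + 1)) + 1) := by rw [hB, ← h1]
      have h3 : B (i + 1) = back M N (p + 1) (N - (i + 1)) := by rw [hB]
      rw [h2, back, ← h3, show N - (N - (i + 1)) = i + 1 by omega, Nat.add_sub_cancel]
    · rw [hBN i h, hBN (i + 1) (by omega), hM.stab i h, hM.stab (i + 1) (by omega)]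
      simp
  -- three cases
  have hBc : ∀ i, (B (i + 1) = 0 ∧ B i = 0) ∨
      (∃ q, B (i + 1) = q + 1 ∧ B i = q + 1 ∧ M (i + 1) q = M i q) ∨
      (∃ q, B (i + 1) = q + 1 ∧ B i = q ∧ M i q < M (i + 1) q) := by
    intro i
    rcases Nat.eq_zero_or_pos (B (i + 1)) with h0 | h0
    · left
      refine ⟨h0, ?_⟩
      rw [hBs i, h0, if_neg (by simp)]
    · right
      obtain ⟨q, hq⟩ : ∃ q, B (i + 1) = q + 1 := ⟨B (i + 1) - 1, by omega⟩
      by_cases h1 : M (i + 1) q = M i q
      · left
        refine ⟨q, hq, ?_, h1⟩
        rw [hBs i, hq, if_neg (by simp only [Nat.add_sub_cancel]; omega)]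
      · right
        refine ⟨q, hq, ?_, ?_⟩
        · rw [hBs i, hq, if_pos ⟨by omega, by simp only [Nat.add_sub_cancel]; omega⟩]
          omega
        · have := hM.mono i q
          omega
  -- removable corners
  have hrem : ∀ k i q, i + k = N → B i = q + 1 → M i (q + 1) < M i q := by
    intro k
    induction k with
    | zero =>
      intro i q hi hq
      have : i = N := by omega
      subst this
      have h1 := hBN i le_rfl
      have h2 : q = p := by omega
      subst h2
      exact hp
    | succ k ih =>
      intro i q hi hq
      rcases hBc i with ⟨h1, h2⟩ | ⟨t, h1, h2, h3⟩ | ⟨t, h1, h2, h3⟩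
      · omega
      · have h4 := ih (i + 1) t (by omega) h1
        have h5 : t = q := by omega
        subst h5
        have h6 := hM.mono i (t + 1)
        omega
      · have h5 : t = q + 1 := by omega
        subst h5
        have h6 := hM.strip i q
        omega
  have hrem' : ∀ i q, B i = q + 1 → M i (q + 1) < M i q := by
    intro i q hq
    rcases Nat.lt_or_ge i N with h | h
    · exact hrem (N - i) i q (by omega) hq
    · have h1 := hBN i h
      have h2 : q = p := by omega
      subst h2
      rw [hM.stab i h, hM.stab i h]
      exact hp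
  have hB0 : B 0 = 0 := by
    by_contra h
    have h1 := hrem' 0 (B 0 - 1) (by omega)
    rw [hM.zero, hM.zero] at h1
    omega
  have hBm : ∀ i, B i ≤ B (i + 1) := by
    intro i
    rcases hBc i with ⟨h1, h2⟩ | ⟨t, h1, h2, h3⟩ | ⟨t, h1, h2, h3⟩ <;> omega
  have hBmono : Monotone B := monotone_nat_of_le_succ hBm
  -- the letter
  obtain ⟨x, hx0, hx1⟩ : ∃ x, B x = 0 ∧ B (x + 1) ≠ 0 := by
    by_contra hcon
    push Not at hcon
    have : ∀ i, B i = 0 := by
      intro i
      induction i with
      | zero => exact hB0
      | succ i ih => exact hcon i ih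
    have h1 := this N
    rw [hBN N le_rfl] at h1
    omega
  have hxN : x < N := by
    by_contra h
    rw [hBN x (by omega)] at hx0
    omega
  have hx2 : B (x + 1) = 1 := by
    rcases hBc x with ⟨h1, h2⟩ | ⟨t, h1, h2, h3⟩ | ⟨t, h1, h2, h3⟩ <;> omega
  have hlo : ∀ i, i ≤ x → B i = 0 := fun i hi => by
    have := hBmono hi
    omega
  have hhi : ∀ i, x < i → B i ≠ 0 := fun i hi => by
    have := hBmono (show x + 1 ≤ i by omega)
    omega
  obtain ⟨L, hLdef⟩ : ∃ L : Ch, L = fun i r => M i r - if B i = r + 1 then 1 else 0 := ⟨_, rfl⟩
  have hL1 : ∀ i r, B i = r + 1 → L i r = M i r - 1 := by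
    intro i r h
    rw [hLdef]
    simp only [if_pos h]
  have hL2 : ∀ i r, B i ≠ r + 1 → L i r = M i r := by
    intro i r h
    rw [hLdef]
    simp only [if_neg h, Nat.sub_zero]
  have hLM : ∀ i r, L i r ≤ M i r := by
    intro i r
    rw [hLdef]
    exact Nat.sub_le _ _
  have hgood : Good N L := by
    refine ⟨fun r => ?_, fun i r => ?_, fun i r => ?_, fun i hi r => ?_⟩
    · have := hLM 0 r
      rw [hM.zero] at this
      omega
    · by_cases h : B (i + 1) = r + 1
      · rw [hL1 (i + 1) r h]
        rcases hBc i with ⟨h1, h2⟩ | ⟨t, h1, h2, h3⟩ | ⟨t, h1, h2, h3⟩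
        · omega
        · have : t = r := by omega
          subst this
          rw [hL1 i t h2]
          omega
        · have : t = r := by omega
          subst this
          have := hLM i t
          omega
      · rw [hL2 (i + 1) r h]
        exact le_trans (hLM i r) (hM.mono i r)
    · by_cases h : B i = r + 1
      · rw [hL1 i r h]
        rcases hBc i with ⟨h1, h2⟩ | ⟨t, h1, h2, h3⟩ | ⟨t, h1, h2, h3⟩
        · omega
        · have : t = r := by omega
          subst this
          have h4 := hrem' (i + 1) t h1
          have h5 := hLM (i + 1) (t + 1)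
          omega
        · have : t = r + 1 := by omega
          subst this
          rw [hL1 (i + 1) (r + 1) h1]
          have h4 := hM.strip i r
          omega
      · rw [hL2 i r h]
        exact le_trans (hLM _ _) (hM.strip i r)
    · rw [hLdef]
      simp only
      rw [hBN i hi, hBN N le_rfl, hM.stab i hi]
  have hpath : ∀ i, path L x i = B i := by
    intro i
    induction i with
    | zero => rw [path_0, hB0]
    | succ i ih =>
      rcases Nat.eq_zero_or_pos (B i) with h0 | h0
      · rw [path_s0 L x i (by omega)]
        by_cases h1 : i = x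
        · rw [if_pos h1, h1, hx2]
        · rw [if_neg h1, hlo (i + 1)]
          by_contra h2
          exact hhi i (by omega) h0
      · obtain ⟨q, hq⟩ : ∃ q, B i = q + 1 := ⟨B i - 1, by omega⟩
        rcases hBc i with ⟨h1, h2⟩ | ⟨t, h1, h2, h3⟩ | ⟨t, h1, h2, h3⟩
        · omega
        · have : t = q := by omega
          subst this
          rw [path_s1 L x i t (by omega) (by rw [hL1 _ _ h1, hL1 _ _ h2, h3]), h1]
        · have : t = q + 1 := by omega
          subst this
          have h4 := hrem' i q hq
          have h5 := hM.mono i q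
          rw [path_s2 L x i q (by omega) (by rw [hL2 (i + 1) q (by omega), hL1 _ _ hq]; omega), h1]
  refine ⟨x, L, hxN, hgood, ?_, ?_⟩
  · funext i r
    unfold step
    rw [hpath i]
    by_cases h : B i = r + 1
    · rw [if_pos h, hL1 i r h]
      have := hrem' i r h
      omega
    · rw [if_neg h, hL2 i r h, add_zero]
  · rw [hpath N, hBN N le_rfl]

/-! ### Two consecutive insertions -/

theorem path_up {N : ℕ} {L : Ch} (hL : Good N L) (x x' : ℕ) (h : x ≤ x') (i : ℕ) :
    path (step L x) x' i ≤ path L x i := by
  induction i with
  | zero => exact le_of_eq rfl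
  | succ i ih =>
    rcases Nat.eq_zero_or_pos (path (step L x) x' i) with h0 | h0
    · rw [path_s0 _ x' i h0]
      by_cases h1 : i = x'
      · rw [if_pos h1]
        exact path_pos L x (i + 1) (by omega)
      · rw [if_neg h1]
        omega
    · obtain ⟨q, hq⟩ : ∃ q, path (step L x) x' i = q + 1 :=
        ⟨path (step L x) x' i - 1, by omega⟩
      have h1 := path_le (step L x) x' i
      have h2 := path_mono L x i
      rcases Nat.lt_or_ge (path (step L x) x' i) (path L x i) with h3 | h3
      · omega
      · have h4 : path L x i = q + 1 := by omega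
        by_cases h5 : L (i + 1) q = L i q
        · have h6 := path_s1 L x i q h4 h5
          rw [path_s1 (step L x) x' i q hq (by
            rw [step_eq L x (i + 1) q h6, step_eq L x i q h4, h5]), h6]
        · have h6 := path_s2 L x i q h4 h5
          omega

theorem path_down {N : ℕ} {L : Ch} (hL : Good N L) (x x' : ℕ) (h : x' < x) (i : ℕ)
    (hi : x < i) : path L x i < path (step L x) x' i := by
  induction i with
  | zero => omega
  | succ i ih =>
    rcases Nat.lt_or_ge x i with h1 | h1
    · have h2 := ih h1
      have h3 := path_pos L x i h1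
      obtain ⟨p, hp⟩ : ∃ p, path L x i = p + 1 := ⟨path L x i - 1, by omega⟩
      have h4 := path_le L x i
      have h5 := path_mono (step L x) x' i
      by_contra hcon
      have h6 : path L x (i + 1) = (p + 1) + 1 := by omega
      have h7 : path (step L x) x' i = (p + 1) + 1 := by omega
      have h8 := step_eq L x (i + 1) (p + 1) h6
      have h9 := step_ne L x i (p + 1) (by omega)
      have h10 := hL.mono i (p + 1)
      have h11 := path_s2 (step L x) x' i (p + 1) h7 (by omega)
      omega
    · have hix : i = x := by omega
      have h2 : path L x (i + 1) = 0 + 1 := by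
        rw [path_s0 L x i (path_zero L x i (by omega)), if_pos hix]
      have h3 := path_pos (step L x) x' i (by omega)
      have h5 := path_mono (step L x) x' i
      by_contra hcon
      have h7 : path (step L x) x' i = 0 + 1 := by omega
      have h8 := step_eq L x (i + 1) 0 h2
      have h9 := step_ne L x i 0 (by rw [path_zero L x i (by omega)]; omega)
      have h10 := hL.mono i 0
      have h11 := path_s2 (step L x) x' i 0 h7 (by omega)
      omega

end Pool.Agent.H140.VR
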