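import Pool.Agent.H140.VR.RSK

/-!
# The Robinson–Schensted–Knuth correspondence for words
-/

set_option autoImplicit false

namespace Pool.Agent.H140.VR

open Finset

/-- the insertion tableau of the first `n` letters -/
def tab (g : ℕ → ℕ) : ℕ → Ch
  | 0 => fun _ _ => 0
  | n + 1 => step (tab g n) (g n)

/-- number of `j < n` with `ρ j = r` -/
def cnt (ρ : ℕ → ℕ) (n r : ℕ) : ℕ := ((range n).filter (fun j => ρ j = r)).card

theorem cnt_zero (ρ : ℕ → ℕ) (r : ℕ) : cnt ρ 0 r = 0 := by
  simp [cnt]

theorem cnt_succ (ρ : ℕ → ℕ) (n r : ℕ) : cnt ρ (n + 1) r = cnt ρ n r + if ρ n = r then 1 else 0 := by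
  unfold cnt
  rw [range_add_one, filter_insert]
  split_ifs with h
  · rw [card_insert_of_notMem (by simp)]
  · rfl

/-- Yamanouchi words (of rows) -/
def Yam (ρ : ℕ → ℕ) (n : ℕ) : Prop := ∀ m, m ≤ n → ∀ r, cnt ρ m (r + 1) ≤ cnt ρ m r

theorem good_zero (N : ℕ) : Good N (fun _ _ => 0) :=
  ⟨fun _ => rfl, fun _ _ => le_rfl, fun _ _ => le_rfl, fun _ _ _ => rfl⟩

theorem tab_congr (g g' : ℕ → ℕ) (n : ℕ) (h : ∀ j, j < n → g j = g' j) : tab g n = tab g' n := by
  induction n with
  | zero => rfl
  | succ n ih =>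
    rw [tab, tab, ih fun j hj => h j (by omega), h n (by omega)]

theorem good_tab (N : ℕ) (g : ℕ → ℕ) (n : ℕ) (h : ∀ j, j < n → g j < N) : Good N (tab g n) := by
  induction n with
  | zero => exact good_zero N
  | succ n ih => exact good_step (ih fun j hj => h j (by omega)) _ (h n (by omega))

/-- `ρ` is the word of rows of `g` -/
def RowOf (N : ℕ) (g ρ : ℕ → ℕ) (n : ℕ) : Prop := ∀ j, j < n → path (tab g j) (g j) N = ρ j + 1

theorem exists_row (N : ℕ) (g : ℕ → ℕ) (n : ℕ) (h : ∀ j, j < n → g j < N) :
    ∃ ρ : ℕ → ℕ, RowOf N g ρ n := by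
  refine ⟨fun j => path (tab g j) (g j) N - 1, fun j hj => ?_⟩
  have := path_pos (tab g j) (g j) N (h j hj)
  simp only
  omega

theorem tab_top (N : ℕ) (g ρ : ℕ → ℕ) (n : ℕ) (hρ : RowOf N g ρ n) (r : ℕ) :
    tab g n N r = cnt ρ n r := by
  induction n with
  | zero => rw [cnt_zero]; rfl
  | succ n ih =>
    have h1 := hρ n (by omega)
    rw [cnt_succ, ← ih fun j hj => hρ j (by omega), tab, step, h1]
    simp only [Nat.add_right_cancel_iff]

theorem good_anti {N : ℕ} {L : Ch} (hL : Good N L) (i r : ℕ) : L i (r + 1) ≤ L i r :=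
  le_trans (hL.mono i (r + 1)) (hL.strip i r)

theorem yam_of (N : ℕ) (g ρ : ℕ → ℕ) (n : ℕ) (h : ∀ j, j < n → g j < N) (hρ : RowOf N g ρ n) :
    Yam ρ n := by
  intro m hm r
  have h1 := good_tab N g m fun j hj => h j (by omega)
  have h2 : RowOf N g ρ m := fun j hj => hρ j (by omega)
  rw [← tab_top N g ρ m h2, ← tab_top N g ρ m h2]
  exact good_anti h1 N r

/-- **surjectivity** -/
theorem rsk_surj (N : ℕ) (ρ : ℕ → ℕ) (n : ℕ) (hY : Yam ρ n) (M : Ch) (hM : Good N M)
    (htop : ∀ r, M N r = cnt ρ n r) :
    ∃ g : ℕ → ℕ, (∀ j, j < n → g j < N) ∧ tab g n = M ∧ RowOf N g ρ n := by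
  induction n generalizing M with
  | zero =>
    refine ⟨fun _ => 0, fun j hj => by omega, ?_, fun j hj => by omega⟩
    funext i r
    have h1 : ∀ i, M i r ≤ M (i + N) r := by
      have : Monotone fun i => M i r := monotone_nat_of_le_succ fun i => hM.mono i r
      intro i
      exact this (by omega)
    have h2 := h1 i
    rw [hM.stab (i + N) (by omega), htop, cnt_zero] at h2
    change 0 = M i r
    omega
  | succ n ih =>
    have h1 : M N (ρ n + 1) < M N (ρ n) := by
      rw [htop, htop, cnt_succ, cnt_succ, if_neg (by omega), if_pos rfl]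
      have := hY n (by omega) (ρ n)
      omega
    obtain ⟨x, L, hx, hL, hs, hp⟩ := step_surj hM (ρ n) h1
    have h2 : ∀ r, L N r = cnt ρ n r := by
      intro r
      have h3 : step L x N r = cnt ρ (n + 1) r := by rw [hs, htop]
      rw [cnt_succ, step, hp] at h3
      simp only [Nat.add_right_cancel_iff] at h3
      exact h3
    obtain ⟨g, hg1, hg2, hg3⟩ := ih (fun m hm => hY m (by omega)) L hL h2
    have hcon : ∀ j, j ≤ n → tab (Function.update g n x) j = tab g j := by
      intro j hj
      refine tab_congr _ _ j fun t ht => ?_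
      rw [Function.update_of_ne (by omega)]
    refine ⟨Function.update g n x, ?_, ?_, ?_⟩
    · intro j hj
      by_cases h : j = n
      · rw [h, Function.update_self]
        exact hx
      · rw [Function.update_of_ne h]
        exact hg1 j (by omega)
    · rw [tab, hcon n le_rfl, Function.update_self, hg2, hs]
    · intro j hj
      rw [hcon j (by omega)]
      by_cases h : j = n
      · subst h
        rw [Function.update_self, hg2, hp]
      · rw [Function.update_of_ne h]
        exact hg3 j (by omega)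

/-- **injectivity** -/
theorem rsk_inj (N : ℕ) (g g' ρ : ℕ → ℕ) (n : ℕ) (h : ∀ j, j < n → g j < N)
    (h' : ∀ j, j < n → g' j < N) (hρ : RowOf N g ρ n) (hρ' : RowOf N g' ρ n)
    (ht : tab g n = tab g' n) : ∀ j, j < n → g j = g' j := by
  induction n with
  | zero => intro j hj; omega
  | succ n ih =>
    have h1 := step_inj (good_tab N g n fun j hj => h j (by omega))
      (good_tab N g' n fun j hj => h' j (by omega)) (g n) (g' n) (h n (by omega)) (h' n (by omega))
      ht (by rw [hρ n (by omega), hρ' n (by omega)])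
    intro j hj
    by_cases hjn : j = n
    · rw [hjn]
      exact h1.1
    · exact ih (fun j hj => h j (by omega)) (fun j hj => h' j (by omega))
        (fun j hj => hρ j (by omega)) (fun j hj => hρ' j (by omega)) h1.2 j (by omega)

/-- **descents** -/
theorem rsk_desc (N : ℕ) (g ρ : ℕ → ℕ) (n : ℕ) (h : ∀ j, j < n → g j < N) (hρ : RowOf N g ρ n)
    (j : ℕ) (hj : j + 1 < n) : g (j + 1) < g j ↔ ρ j < ρ (j + 1) := by
  have h1 := hρ j (by omega)
  have h2 := hρ (j + 1) hj
  rw [tab] at h2
  have hg := good_tab N g j fun i hi => h i (by omega)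
  constructor
  · intro h3
    have := path_down hg (g j) (g (j + 1)) h3 N (h j (by omega))
    omega
  · intro h3
    by_contra h4
    have := path_up hg (g j) (g (j + 1)) (by omega) N
    omega

/-! ### weights -/

theorem tab_row_zero (N : ℕ) (g : ℕ → ℕ) (n : ℕ) (h : ∀ j, j < n → g j < N) (i r : ℕ)
    (hr : n ≤ r) : tab g n i r = 0 := by
  induction n generalizing r with
  | zero => rfl
  | succ n ih =>
    have h1 : ∀ j, j < n → g j < N := fun j hj => h j (by omega)
    rw [tab, step_ne, ih h1 r (by omega)]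
    intro h2
    obtain ⟨s, rfl⟩ : ∃ s, r = s + 1 := ⟨r - 1, by omega⟩
    have h3 := add_inv (good_tab N g n h1) (g n) i s h2
    rw [ih h1 s (by omega)] at h3
    omega

theorem tab_sum (N : ℕ) (g : ℕ → ℕ) (n R : ℕ) (h : ∀ j, j < n → g j < N) (hR : n ≤ R) (i : ℕ) :
    ∑ r ∈ range R, tab g n i r = ((range n).filter (fun j => g j < i)).card := by
  induction n with
  | zero => simp [tab]
  | succ n ih =>
    have h1 : ∀ j, j < n → g j < N := fun j hj => h j (by omega)
    have ih' := ih h1 (by omega)
    have h2 : ∑ r ∈ range R, (if path (tab g n) (g n) i = r + 1 then 1 else 0) =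
        if g n < i then 1 else 0 := by
      by_cases h3 : g n < i
      · rw [if_pos h3]
        have h4 := path_pos (tab g n) (g n) i h3
        obtain ⟨p, hp⟩ : ∃ p, path (tab g n) (g n) i = p + 1 := ⟨_, (Nat.sub_add_cancel h4).symm⟩
        have h5 : p < R := by
          by_contra h6
          obtain ⟨s, rfl⟩ : ∃ s, p = s + 1 := ⟨p - 1, by omega⟩
          have h7 := add_inv (good_tab N g n h1) (g n) i s hp
          rw [tab_row_zero N g n h1 i s (by omega)] at h7
          omega
        rw [hp]
        simp only [Nat.add_right_cancel_iff]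
        rw [Finset.sum_ite_eq (range R) p, if_pos (by simpa using h5)]
      · rw [if_neg h3]
        refine Finset.sum_eq_zero fun r _ => ?_
        rw [if_neg]
        rw [path_zero _ _ _ (by omega)]
        omega
    change ∑ r ∈ range R, (tab g n i r + if path (tab g n) (g n) i = r + 1 then 1 else 0) = _
    rw [Finset.sum_add_distrib, ih', h2, range_add_one, filter_insert]
    split_ifs with h3
    · rw [card_insert_of_notMem (by simp)]
    · rfl

end Pool.Agent.H140.VR
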