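import Pool.Agent.H140.VR.Stm

/-!
# Permutations, words and stable sorting
-/

set_option autoImplicit false

namespace Pool.Agent.H140.VR

open Finset
open scoped Classical

noncomputable section

theorem content_comp {n : ℕ} (g : Fin n → ℕ) (e : Equiv.Perm (Fin n)) :
    content (g ∘ e) = content g := by
  unfold content
  exact Equiv.sum_comp e (fun j => Finsupp.single (g j) 1)

theorem content_apply {n : ℕ} (g : Fin n → ℕ) (v : ℕ) :
    content g v = (univ.filter (fun x => g x = v)).card := by
  unfold content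
  rw [Finsupp.finsetSum_apply, Finset.card_filter]
  refine Finset.sum_congr rfl fun x _ => ?_
  rw [Finsupp.single_apply]

theorem content_pos {n : ℕ} (g : Fin n → ℕ) (x : Fin n) : 0 < content g (g x) := by
  rw [content_apply, Finset.card_pos]
  exact ⟨x, by simp⟩

instance finiteW {n : ℕ} (a : ℕ →₀ ℕ) (P : (Fin n → ℕ) → Prop) :
    Finite {g : Fin n → ℕ // content g = a ∧ P g} := by
  have : Finite (Fin n → a.support) := inferInstance
  refine Finite.of_injective (β := Fin n → a.support)
    (fun g x => ⟨g.1 x, by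
      rw [Finsupp.mem_support_iff]
      have h := (content_pos g.1 x).ne'
      rw [g.2.1] at h
      exact h⟩) ?_
  intro g h hgh
  apply Subtype.ext
  funext x
  have := congrFun hgh x
  simpa using congrArg Subtype.val this

instance finiteW' {n : ℕ} (a : ℕ →₀ ℕ) (P : (Fin n → ℕ) → Prop) :
    Finite {g : Fin n → ℕ // P g ∧ content g = a} := by
  refine Finite.of_injective (β := {g : Fin n → ℕ // content g = a ∧ P g})
    (fun g => ⟨g.1, g.2.2, g.2.1⟩) ?_
  intro g h hgh
  simp only [Subtype.mk.injEq] at hgh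
  exact Subtype.ext hgh

/-- the condition on index sequences -/
def Fund {n : ℕ} (D : Finset ℕ) (i : Fin n → ℕ) : Prop :=
  Monotone i ∧ ∀ j k : Fin n, (k : ℕ) = j + 1 → (j : ℕ) ∈ D → i j < i k

theorem mem_desSet {n : ℕ} {α : Type} [LT α] (f : Fin n → α) (j k : Fin n) (h : (k : ℕ) = j + 1) :
    (j : ℕ) ∈ desSet f ↔ f k < f j := by
  unfold desSet
  rw [mem_filter, mem_range]
  constructor
  · rintro ⟨_, a, b, ha, hb, hab⟩
    have e1 : a = j := Fin.ext ha
    have e2 : b = k := Fin.ext (by omega)
    rw [← e1, ← e2]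
    exact hab
  · intro hab
    exact ⟨by omega, j, k, rfl, h, hab⟩

theorem fund_iff {n : ℕ} (π : Equiv.Perm (Fin n)) (i : Fin n → ℕ) :
    Fund (desSet π) i ↔ π = Tuple.sort (i ∘ π.symm) := by
  rw [Tuple.eq_sort_iff]
  have e : (i ∘ π.symm) ∘ π = i := by
    funext x
    simp
  rw [e]
  simp only [Function.comp_apply, Equiv.symm_apply_apply]
  constructor
  · rintro ⟨hm, hd⟩
    refine ⟨hm, ?_⟩
    have key : ∀ (d : ℕ) (s t : Fin n), (t : ℕ) = s + d + 1 → i s = i t → π s < π t := by
      intro d
      induction d with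
      | zero =>
        intro s t hst hi
        by_contra hcon
        have hne : π s ≠ π t := fun h => by
          have := π.injective h
          rw [this] at hst
          omega
        have hlt : π t < π s := lt_of_le_of_ne (not_lt.1 hcon) hne.symm
        have := hd s t (by omega) ((mem_desSet π s t (by omega)).2 hlt)
        omega
      | succ d ih =>
        intro s t hst hi
        set t' : Fin n := ⟨t - 1, by omega⟩ with ht'
        have h1 : i s ≤ i t' := hm (by rw [Fin.le_def]; simp only [ht']; omega)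
        have h2 : i t' ≤ i t := hm (by rw [Fin.le_def]; simp only [ht']; omega)
        have h3 := ih s t' (by simp only [ht']; omega) (by omega)
        refine h3.trans ?_
        by_contra hcon
        have hne : π t' ≠ π t := fun h => by
          have := π.injective h
          have := congrArg Fin.val this
          simp only [ht'] at this
          omega
        have hlt : π t < π t' := lt_of_le_of_ne (not_lt.1 hcon) hne.symm
        have := hd t' t (by simp only [ht']; omega)
          ((mem_desSet π t' t (by simp only [ht']; omega)).2 hlt)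
        omega
    intro s t hst hi
    exact key (t - s - 1) s t (by rw [Fin.lt_def] at hst; omega) hi
  · rintro ⟨hm, ht⟩
    refine ⟨hm, ?_⟩
    intro j k hjk hj
    rw [mem_desSet π j k hjk] at hj
    have h1 : i j ≤ i k := hm (by rw [Fin.le_def]; omega)
    rcases h1.lt_or_eq with h | h
    · exact h
    · have := ht j k (by rw [Fin.lt_def]; omega) h
      exact absurd this (not_lt.2 hj.le)

/-- **the coefficients of `quasi A` count words** -/
theorem quasi_apply {n : ℕ} (A : Set (Equiv.Perm (Fin n))) (a : ℕ →₀ ℕ) :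
    quasi A a = (Nat.card {g : Fin n → ℕ // content g = a ∧ Tuple.sort g ∈ A} : ℤ) := by
  have h1 : quasi A a = ∑ π : Equiv.Perm (Fin n),
      (Nat.card {i : Fin n → ℕ // content i = a ∧ (Fund (desSet π) i ∧ π ∈ A)} : ℤ) := by
    change MvPowerSeries.coeff a (quasi A) = _
    unfold quasi
    rw [map_sum]
    refine Finset.sum_congr rfl fun π _ => ?_
    by_cases hπ : π ∈ A
    · rw [if_pos hπ]
      change fundamental n (desSet π) a = _
      unfold fundamental
      norm_cast
      refine Nat.card_congr ⟨fun i => ⟨i.1, i.2.2, i.2.1, hπ⟩, fun i => ⟨i.1, i.2.2.1, i.2.1⟩,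
        fun i => rfl, fun i => rfl⟩
    · rw [if_neg hπ, map_zero]
      have : IsEmpty {i : Fin n → ℕ // content i = a ∧ (Fund (desSet π) i ∧ π ∈ A)} :=
        ⟨fun i => hπ i.2.2.2⟩
      rw [Nat.card_of_isEmpty]
      rfl
  rw [h1, ← Nat.cast_sum, ← Nat.card_sigma]
  norm_cast
  refine Nat.card_congr ?_
  refine ⟨fun z => ⟨z.2.1 ∘ z.1.symm, ?_, ?_⟩, fun g => ⟨Tuple.sort g.1, g.1 ∘ Tuple.sort g.1,
    ?_, ?_, g.2.2⟩, ?_, ?_⟩
  · rw [content_comp]
    exact z.2.2.1
  · have := (fund_iff z.1 z.2.1).1 z.2.2.2.1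
    rw [← this]
    exact z.2.2.2.2
  · rw [content_comp]
    exact g.2.1
  · rw [fund_iff]
    have : (g.1 ∘ Tuple.sort g.1) ∘ (Tuple.sort g.1).symm = g.1 := by
      funext x
      simp
    rw [this]
  · rintro ⟨π, i, hi, hf, hπ⟩
    have h := (fund_iff π i).1 hf
    have e2 : (i ∘ π.symm) ∘ π = i := by
      funext x
      simp
    have key : ∀ (π' : Equiv.Perm (Fin n)) (i' : Fin n → ℕ) (h' : content i' = a ∧
        (Fund (desSet π') i' ∧ π' ∈ A)), π' = π → i' = i →
        (⟨π', ⟨i', h'⟩⟩ : Σ π : Equiv.Perm (Fin n),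
          {i : Fin n → ℕ // content i = a ∧ (Fund (desSet π) i ∧ π ∈ A)}) = ⟨π, ⟨i, hi, hf, hπ⟩⟩ := by
      intro π' i' h' e1 e3
      subst e1 e3
      rfl
    refine key _ _ _ h.symm ?_
    simp only [← h]
    exact e2
  · rintro ⟨g, h1, h2⟩
    apply Subtype.ext
    funext x
    simp

/-- stable sorting -/
theorem sort_symm_lt {n : ℕ} (g : Fin n → ℕ) (x y : Fin n) :
    (Tuple.sort g).symm x < (Tuple.sort g).symm y ↔ (g x < g y ∨ (g x = g y ∧ x < y)) := by
  obtain ⟨h1, h2⟩ := (Tuple.eq_sort_iff (σ := Tuple.sort g) (f := g)).1 rfl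
  have key : ∀ x y : Fin n, (Tuple.sort g).symm x < (Tuple.sort g).symm y →
      (g x < g y ∨ (g x = g y ∧ x < y)) := by
    intro x y h
    have h3 := h1 h.le
    simp only [Function.comp_apply, Equiv.apply_symm_apply] at h3
    rcases h3.lt_or_eq with h4 | h4
    · exact Or.inl h4
    · have h5 := h2 _ _ h (by simpa using h4)
      simp only [Equiv.apply_symm_apply] at h5
      exact Or.inr ⟨h4, h5⟩
  constructor
  · exact key x y
  · intro h
    by_contra hcon
    rcases (not_lt.1 hcon).lt_or_eq with h4 | h4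
    · rcases key y x h4 with h5 | ⟨h5, h6⟩
      · rcases h with h | ⟨h, _⟩ <;> omega
      · rcases h with h | ⟨_, h⟩
        · omega
        · exact absurd h (not_lt.2 h6.le)
    · have := (Tuple.sort g).symm.injective h4
      subst this
      rcases h with h | ⟨_, h⟩
      · omega
      · exact absurd h (lt_irrefl _)

/-! ### cyclic descents -/

/-- cyclic inverse descents of a permutation -/
def cset {m : ℕ} (w : Equiv.Perm (Fin (m + 1))) : Set (Fin (m + 1)) :=
  {x | w.symm (x + 1) < w.symm x}

/-- the amount of the rotation -/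
def amt (m j : ℕ) : Fin (m + 1) := (finRotate (m + 1) ^ j) 0

theorem pow_finRotate {m : ℕ} (j : ℕ) (x : Fin (m + 1)) :
    (finRotate (m + 1) ^ j) x = x + amt m j := by
  unfold amt
  induction j generalizing x with
  | zero => simp
  | succ j ih =>
    rw [pow_succ, Equiv.Perm.mul_apply, ih, finRotate_apply, Equiv.Perm.mul_apply, finRotate_apply,
      ih (0 + 1)]
    abel

theorem amt_val {m : ℕ} (t : Fin (m + 1)) : amt m (t : ℕ) = t := by
  have h : ∀ j : ℕ, j ≤ m → (amt m j : ℕ) = j := by
    intro j
    induction j with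
    | zero => intro _; simp [amt]
    | succ j ih =>
      intro hj
      have h1 : amt m (j + 1) = amt m j + 1 := by
        unfold amt
        rw [pow_succ', Equiv.Perm.mul_apply, finRotate_apply]
      rw [h1, Fin.val_add_one_of_lt (by
        rw [Fin.lt_def, ih (by omega)]
        simp
        omega), ih (by omega)]
  exact Fin.ext (h t (by omega))

theorem pow_finRotate_symm {m : ℕ} (j : ℕ) (x : Fin (m + 1)) :
    (finRotate (m + 1) ^ j).symm x = x - amt m j := by
  rw [Equiv.symm_apply_eq, pow_finRotate]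
  abel

theorem cset_rotate {m : ℕ} (j : ℕ) (π : Equiv.Perm (Fin (m + 1))) (x : Fin (m + 1)) :
    x ∈ cset (finRotate (m + 1) ^ j * π) ↔ x - amt m j ∈ cset π := by
  unfold cset
  simp only [Set.mem_ofPred_eq]
  have h : ∀ y, (finRotate (m + 1) ^ j * π).symm y = π.symm (y - amt m j) := by
    intro y
    rw [← pow_finRotate_symm]
    rfl
  rw [h, h]
  have : x + 1 - amt m j = x - amt m j + 1 := by abel
  rw [this]

/-- the grid condition in terms of the cyclic descents -/
def PG {k m : ℕ} (v : Fin k → Bool) (J : Set (Fin (m + 1))) : Prop :=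
  ∃ b : Fin (m + 1) → Fin k, Monotone b ∧ ∀ x : Fin m, b x.castSucc = b x.succ →
    (v (b x.castSucc) = true ↔ x.castSucc ∉ J)

theorem grid_iff {k m : ℕ} (v : Fin k → Bool) (π : Equiv.Perm (Fin (m + 1))) :
    π ∈ grid v (m + 1) ↔ PG v (cset π) := by
  have hx : ∀ x : Fin m, x.castSucc + 1 = x.succ := fun x => Fin.coeSucc_eq_succ
  constructor
  · rintro ⟨b, hb, h⟩
    refine ⟨b, hb, fun x hbx => ?_⟩
    have h1 := h x.castSucc x.succ Fin.castSucc_lt_succ hbx
    unfold cset
    simp only [Set.mem_ofPred_eq, hx, not_lt]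
    split_ifs at h1 with hv
    · exact ⟨fun _ => h1.le, fun _ => hv⟩
    · exact ⟨fun h2 => absurd h2 hv, fun h2 => absurd h1 (not_lt.2 h2)⟩
  · rintro ⟨b, hb, h⟩
    refine ⟨b, hb, ?_⟩
    have key : ∀ (d : ℕ) (x y : Fin (m + 1)), (y : ℕ) = x + d + 1 → b x = b y →
        if v (b x) = true then π.symm x < π.symm y else π.symm y < π.symm x := by
      intro d
      induction d with
      | zero =>
        intro x y hxy hb2
        obtain ⟨z, rfl⟩ : ∃ z : Fin m, x = z.castSucc := ⟨⟨x, by omega⟩, rfl⟩
        have e : y = z.succ := Fin.ext (by simpa using hxy)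
        subst e
        have h1 := h z hb2
        unfold cset at h1
        simp only [Set.mem_ofPred_eq, hx, not_lt] at h1
        have hne : π.symm z.castSucc ≠ π.symm z.succ := fun h2 => by
          have := π.symm.injective h2
          exact (Fin.castSucc_lt_succ (i := z)).ne this
        split_ifs with hv
        · exact lt_of_le_of_ne (h1.1 hv) hne
        · exact not_le.1 fun h2 => hv (h1.2 h2)
      | succ d ih =>
        intro x y hxy hb2
        set y' : Fin (m + 1) := ⟨y - 1, by omega⟩ with hy'
        have h1 : b x ≤ b y' := hb (by rw [Fin.le_def]; simp only [hy']; omega)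
        have h2 : b y' ≤ b y := hb (by rw [Fin.le_def]; simp only [hy']; omega)
        have h3 : b x = b y' := le_antisymm h1 (by rw [hb2]; exact h2)
        have h4 := ih x y' (by simp only [hy']; omega) h3
        obtain ⟨z, hz⟩ : ∃ z : Fin m, y' = z.castSucc := ⟨⟨y', by simp only [hy']; omega⟩, rfl⟩
        have hz' : (y' : ℕ) = z := by rw [hz]; rfl
        have e : y = z.succ := Fin.ext (by simp only [hy'] at hz'; simp; omega)
        have h5 := h z (by rw [← hz, ← e, ← h3, hb2])
        unfold cset at h5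
        simp only [Set.mem_ofPred_eq, hx, not_lt] at h5
        rw [← hz, ← e, ← h3] at h5
        have hne : π.symm y' ≠ π.symm y := fun h2 => by
          have := congrArg Fin.val (π.symm.injective h2)
          simp only [hy'] at this
          omega
        split_ifs with hv
        · rw [if_pos hv] at h4
          exact h4.trans (lt_of_le_of_ne (h5.1 hv) hne)
        · rw [if_neg hv] at h4
          exact (not_le.1 fun h2 => hv (h5.2 h2)).trans h4
    intro x y hxy hb2
    exact key (y - x - 1) x y (by rw [Fin.lt_def] at hxy; omega) hb2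

/-- the rotation classes of the grid classes -/
def JG {k : ℕ} (v : Fin k → Bool) (m : ℕ) : Set (Set (Fin (m + 1))) :=
  {J | ∃ t : Fin (m + 1), PG v {x | x + t ∈ J}}

theorem rotations_grid {k m : ℕ} (v : Fin k → Bool) :
    rotations (grid v (m + 1)) = {ρ | cset ρ ∈ JG v m} := by
  ext ρ
  simp only [rotations, JG, Set.mem_ofPred_eq]
  constructor
  · rintro ⟨j, π, hπ, rfl⟩
    refine ⟨amt m j, ?_⟩
    rw [grid_iff] at hπ
    convert hπ using 1
    ext x
    simp only [Set.mem_ofPred_eq]
    rw [cset_rotate]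
    simp
  · rintro ⟨t, ht⟩
    refine ⟨(t : ℕ), (finRotate (m + 1) ^ (t : ℕ))⁻¹ * ρ, ?_, by rw [mul_inv_cancel_left]⟩
    rw [grid_iff]
    convert ht using 1
    ext x
    simp only [Set.mem_ofPred_eq]
    have h := cset_rotate (t : ℕ) ((finRotate (m + 1) ^ (t : ℕ))⁻¹ * ρ) (x + t)
    rw [mul_inv_cancel_left, amt_val] at h
    rw [h]
    simp

theorem JG_shift {k m : ℕ} (v : Fin k → Bool) (J : Set (Fin (m + 1))) (s : Fin (m + 1)) :
    {x | x + s ∈ J} ∈ JG v m ↔ J ∈ JG v m := by
  unfold JG
  simp only [Set.mem_ofPred_eq]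
  constructor
  · rintro ⟨t, ht⟩
    refine ⟨t + s, ?_⟩
    convert ht using 1
    ext x
    simp [add_assoc]
  · rintro ⟨t, ht⟩
    refine ⟨t - s, ?_⟩
    convert ht using 1
    ext x
    simp [add_assoc]

end

end Pool.Agent.H140.VR
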