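import Pool.Agent.H140.VR.RSK2
import Pool.Agent.H140.VR.Words

/-!
# Semistandard tableaux and chains
-/

set_option autoImplicit false

namespace Pool.Agent.H140.VR

open Finset

theorem lower_card (S : Finset ℕ) (h : ∀ c ∈ S, ∀ c', c' ≤ c → c' ∈ S) (c : ℕ) :
    c < S.card ↔ c ∈ S := by
  constructor
  · intro h1
    by_contra h2
    have h3 : S ⊆ range c := by
      intro s hs
      rw [mem_range]
      by_contra h4
      exact h2 (h s hs c (by omega))
    have h4 := card_le_card h3
    rw [card_range] at h4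
    omega
  · intro h1
    have h3 : range (c + 1) ⊆ S := by
      intro s hs
      rw [mem_range] at hs
      exact h c h1 s (by omega)
    have h4 := card_le_card h3
    rw [card_range] at h4
    omega

/-- the chain of a tableau -/
def chn {μ : YoungDiagram} (T : SemistandardYoungTableau μ) : Ch :=
  fun i r => ((range (μ.rowLen r)).filter (fun c => T r c < i)).card

theorem chn_iff {μ : YoungDiagram} (T : SemistandardYoungTableau μ) (i r c : ℕ) :
    c < chn T i r ↔ c < μ.rowLen r ∧ T r c < i := by
  unfold chn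
  rw [lower_card, mem_filter, mem_range]
  intro c hc c' hc'
  rw [mem_filter, mem_range] at hc ⊢
  refine ⟨by omega, lt_of_le_of_lt (T.row_weak_of_le hc' ?_) hc.2⟩
  rw [YoungDiagram.mem_iff_lt_rowLen]
  exact hc.1

theorem chn_top {μ : YoungDiagram} (T : SemistandardYoungTableau μ) (N : ℕ)
    (hN : ∀ r c, c < μ.rowLen r → T r c < N) (i : ℕ) (hi : N ≤ i) (r : ℕ) :
    chn T i r = μ.rowLen r := by
  unfold chn
  rw [filter_true_of_mem, card_range]
  intro c hc
  rw [mem_range] at hc
  exact lt_of_lt_of_le (hN r c hc) hi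

theorem good_chn {μ : YoungDiagram} (T : SemistandardYoungTableau μ) (N : ℕ)
    (hN : ∀ r c, c < μ.rowLen r → T r c < N) : Good N (chn T) := by
  refine ⟨fun r => ?_, fun i r => ?_, fun i r => ?_, fun i hi r => ?_⟩
  · unfold chn
    simp
  · unfold chn
    apply card_le_card
    intro c hc
    rw [mem_filter] at hc ⊢
    exact ⟨hc.1, by omega⟩
  · unfold chn
    apply card_le_card
    intro c hc
    rw [mem_filter, mem_range] at hc ⊢
    have h1 := μ.rowLen_anti r (r + 1) (by omega)
    have h2 := T.col_strict (show r < r + 1 by omega) (YoungDiagram.mem_iff_lt_rowLen.2 hc.1)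
    exact ⟨by omega, by omega⟩
  · rw [chn_top T N hN i hi, chn_top T N hN N le_rfl]

theorem chn_inj {μ : YoungDiagram} (T T' : SemistandardYoungTableau μ) (h : chn T = chn T') :
    T = T' := by
  apply SemistandardYoungTableau.ext
  intro r c
  by_cases hc : (r, c) ∈ μ
  · have hc' := YoungDiagram.mem_iff_lt_rowLen.1 hc
    have key : ∀ i, T r c < i ↔ T' r c < i := by
      intro i
      have h1 := chn_iff T i r c
      have h2 := chn_iff T' i r c
      rw [h] at h1
      constructor
      · intro h3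
        exact (h2.1 (h1.2 ⟨hc', h3⟩)).2
      · intro h3
        exact (h1.1 (h2.2 ⟨hc', h3⟩)).2
    have h3 := (key (T r c + 1)).1 (by omega)
    have h4 := (key (T' r c + 1)).2 (by omega)
    omega
  · rw [T.zeros hc, T'.zeros hc]

theorem good_mono {N : ℕ} {M : Ch} (hM : Good N M) (r : ℕ) {i j : ℕ} (h : i ≤ j) : M i r ≤ M j r := by
  have : Monotone fun i => M i r := monotone_nat_of_le_succ fun i => hM.mono i r
  exact this h

theorem good_le_top {N : ℕ} {M : Ch} (hM : Good N M) (i r : ℕ) : M i r ≤ M N r := by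
  rcases Nat.lt_or_ge i N with h | h
  · exact good_mono hM r h.le
  · rw [hM.stab i h]

theorem good_antit {N : ℕ} {M : Ch} (hM : Good N M) (i : ℕ) {r s : ℕ} (h : r ≤ s) :
    M i s ≤ M i r := by
  have : Antitone fun r => M i r := antitone_nat_of_succ_le fun r => good_anti hM i r
  exact this h

/-- entries of the tableau of a chain -/
def ent (N : ℕ) (M : Ch) (r c : ℕ) : ℕ :=
  if c < M N r then ((range N).filter (fun i => M (i + 1) r ≤ c)).card else 0

theorem ent_iff {N : ℕ} {M : Ch} (hM : Good N M) (r c : ℕ) (hc : c < M N r) (i : ℕ) :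
    ent N M r c < i ↔ c < M i r := by
  have hlow : ∀ k, k < ent N M r c ↔ k < N ∧ M (k + 1) r ≤ c := by
    intro k
    unfold ent
    rw [if_pos hc, lower_card, mem_filter, mem_range]
    intro x hx y hy
    rw [mem_filter, mem_range] at hx ⊢
    have := good_mono hM r (show y + 1 ≤ x + 1 by omega)
    exact ⟨by omega, by omega⟩
  rcases i with _ | k
  · rw [hM.zero]
    simp
  · have h1 := hlow k
    constructor
    · intro h2
      by_contra h3
      have h4 : ¬ k < ent N M r c := by omega
      rw [h1] at h4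
      rcases Nat.lt_or_ge k N with h5 | h5
      · exact h4 ⟨h5, by omega⟩
      · rw [hM.stab (k + 1) (by omega)] at h3
        exact h3 hc
    · intro h2
      by_contra h3
      have h4 := h1.1 (by omega)
      omega

/-- the tableau of a chain -/
def mkT {N : ℕ} {M : Ch} (hM : Good N M) (μ : YoungDiagram) (hμ : ∀ r, μ.rowLen r = M N r) :
    SemistandardYoungTableau μ where
  entry := ent N M
  row_weak' := by
    intro i j1 j2 hj hcell
    rw [YoungDiagram.mem_iff_lt_rowLen, hμ] at hcell
    by_contra hcon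
    have h1 := (ent_iff hM i j2 hcell (ent N M i j1)).1 (by omega)
    have h2 := (ent_iff hM i j1 (by omega) (ent N M i j1)).2 (by omega)
    omega
  col_strict' := by
    intro i1 i2 j hi hcell
    rw [YoungDiagram.mem_iff_lt_rowLen, hμ] at hcell
    have h0 := good_antit hM N hi.le
    have h1 := (ent_iff hM i2 j hcell (ent N M i2 j + 1)).1 (by omega)
    have h2 := good_antit hM (ent N M i2 j + 1) (show i1 + 1 ≤ i2 by omega)
    have h3 := hM.strip (ent N M i2 j) i1
    exact (ent_iff hM i1 j (by omega) (ent N M i2 j)).2 (by omega)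
  zeros' := by
    intro i j hcell
    rw [YoungDiagram.mem_iff_lt_rowLen, hμ] at hcell
    unfold ent
    rw [if_neg hcell]

theorem chn_mkT {N : ℕ} {M : Ch} (hM : Good N M) (μ : YoungDiagram)
    (hμ : ∀ r, μ.rowLen r = M N r) : chn (mkT hM μ hμ) = M := by
  funext i r
  have h : ∀ c, c < chn (mkT hM μ hμ) i r ↔ c < M i r := by
    intro c
    rw [chn_iff]
    change _ ∧ ent N M r c < i ↔ _
    rw [hμ]
    constructor
    · rintro ⟨h1, h2⟩
      exact (ent_iff hM r c h1 i).1 h2
    · intro h1
      have h2 : c < M N r := lt_of_lt_of_le h1 (good_le_top hM i r)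
      exact ⟨h2, (ent_iff hM r c h2 i).2 h1⟩
  have h1 := h (chn (mkT hM μ hμ) i r)
  have h2 := h (M i r)
  omega

/-- sums over the cells -/
theorem sum_cells (μ : YoungDiagram) (R : ℕ) (hR : ∀ r, R ≤ r → μ.rowLen r = 0) (f : ℕ × ℕ → ℕ) :
    ∑ c ∈ μ.cells, f c = ∑ r ∈ range R, ∑ c ∈ range (μ.rowLen r), f (r, c) := by
  apply Finset.sum_finset_product
  rintro ⟨r, c⟩
  rw [YoungDiagram.mem_cells, YoungDiagram.mem_iff_lt_rowLen, mem_range, mem_range]
  simp only
  constructor
  · intro h
    refine ⟨?_, h⟩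
    by_contra h2
    rw [hR r (by omega)] at h
    omega
  · exact fun h => h.2

theorem weight_apply {μ : YoungDiagram} (T : SemistandardYoungTableau μ) (v : ℕ) :
    weight T v = ∑ c ∈ μ.cells, if T c.1 c.2 = v then 1 else 0 := by
  unfold weight
  rw [Finsupp.finsetSum_apply]
  refine Finset.sum_congr rfl fun x _ => ?_
  rw [Finsupp.single_apply]

theorem chn_sum {μ : YoungDiagram} (T : SemistandardYoungTableau μ) (R : ℕ)
    (hR : ∀ r, R ≤ r → μ.rowLen r = 0) (v : ℕ) :
    ∑ r ∈ range R, chn T (v + 1) r = ∑ r ∈ range R, chn T v r + weight T v := by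
  rw [weight_apply, sum_cells μ R hR, ← Finset.sum_add_distrib]
  refine Finset.sum_congr rfl fun r _ => ?_
  unfold chn
  rw [card_filter, card_filter, ← Finset.sum_add_distrib]
  refine Finset.sum_congr rfl fun c _ => ?_
  simp only
  split_ifs <;> omega

theorem weight_pos {μ : YoungDiagram} (T : SemistandardYoungTableau μ) (r c : ℕ)
    (h : c < μ.rowLen r) : 0 < weight T (T r c) := by
  rw [weight_apply]
  have h1 : (r, c) ∈ μ.cells := by
    rw [YoungDiagram.mem_cells, YoungDiagram.mem_iff_lt_rowLen]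
    exact h
  have h2 := Finset.single_le_sum (f := fun c' : ℕ × ℕ => if T c'.1 c'.2 = T r c then 1 else 0)
    (fun _ _ => Nat.zero_le _) h1
  simp only [if_true] at h2
  omega

/-- the diagram with given row lengths -/
def shp (n : ℕ) (f : ℕ → ℕ) (hf : ∀ r, f (r + 1) ≤ f r) : YoungDiagram where
  cells := (range n ×ˢ range n).filter (fun c => c.2 < f c.1)
  isLowerSet := by
    rintro ⟨a, b⟩ ⟨c, d⟩ h1 h2
    simp only [coe_filter, mem_product, mem_range, Set.mem_ofPred_eq] at h2 ⊢
    rw [Prod.mk_le_mk] at h1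
    have : Antitone f := antitone_nat_of_succ_le hf
    have h3 := this h1.1
    omega

theorem shp_rowLen (n : ℕ) (f : ℕ → ℕ) (hf : ∀ r, f (r + 1) ≤ f r) (h1 : ∀ r, f r ≤ n)
    (h2 : ∀ r, n ≤ r → f r = 0) (r : ℕ) : (shp n f hf).rowLen r = f r := by
  have h : ∀ c, c < (shp n f hf).rowLen r ↔ c < f r := by
    intro c
    rw [← YoungDiagram.mem_iff_lt_rowLen, ← YoungDiagram.mem_cells]
    change (r, c) ∈ (range n ×ˢ range n).filter (fun c => c.2 < f c.1) ↔ _
    rw [mem_filter, mem_product, mem_range, mem_range]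
    simp only
    constructor
    · exact fun h => h.2
    · intro h
      refine ⟨⟨?_, lt_of_lt_of_le h (h1 r)⟩, h⟩
      by_contra h3
      rw [h2 r (by omega)] at h
      omega
  have h3 := h ((shp n f hf).rowLen r)
  have h4 := h (f r)
  omega

theorem shp_card (n : ℕ) (f : ℕ → ℕ) (hf : ∀ r, f (r + 1) ≤ f r) (h1 : ∀ r, f r ≤ n)
    (h2 : ∀ r, n ≤ r → f r = 0) : (shp n f hf).card = ∑ r ∈ range n, f r := by
  change (shp n f hf).cells.card = _
  rw [Finset.card_eq_sum_ones, sum_cells (shp n f hf) n fun r hr => by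
    rw [shp_rowLen n f hf h1 h2, h2 r hr]]
  refine Finset.sum_congr rfl fun r _ => ?_
  rw [shp_rowLen n f hf h1 h2]
  simp

end Pool.Agent.H140.VR
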