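import Pool.Agent.H140.VR.RSK3
import Pool.Agent.H140.VR.Main

/-!
# Ribbon functions are Schur positive
-/

set_option autoImplicit false

namespace Pool.Agent.H140.VR

open Finset

variable {n : ℕ}

/-- extension by zero -/
def ext0 (g : Fin n → ℕ) (j : ℕ) : ℕ := if h : j < n then g ⟨j, h⟩ else 0

theorem ext0_fin (g : Fin n → ℕ) (j : Fin n) : ext0 g j = g j := by
  unfold ext0
  rw [dif_pos j.2]

theorem ext0_lt (g : Fin n → ℕ) (j : ℕ) (h : j < n) : ext0 g j = g ⟨j, h⟩ := by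
  unfold ext0
  rw [dif_pos h]

/-- row words -/
def rex (ρ : Fin n → Fin n) : ℕ → ℕ := ext0 fun j => (ρ j : ℕ)

theorem cnt_le (ρ : ℕ → ℕ) (n r : ℕ) : cnt ρ n r ≤ n := by
  unfold cnt
  exact le_trans (card_filter_le _ _) (by rw [card_range])

theorem cnt_rex (ρ : Fin n → Fin n) (r : ℕ) (hr : n ≤ r) : cnt (rex ρ) n r = 0 := by
  unfold cnt
  rw [card_eq_zero, filter_eq_empty_iff]
  intro j hj
  rw [mem_range] at hj
  unfold rex
  rw [ext0_lt _ j hj]
  have := (ρ ⟨j, hj⟩).2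
  omega

/-- the set of good row words -/
def RW (n : ℕ) (K : Finset ℕ) : Type :=
  {ρ : Fin n → Fin n // Yam (rex ρ) n ∧
    (range (n - 1)).filter (fun x => rex ρ x < rex ρ (x + 1)) = K}

instance (K : Finset ℕ) : Finite (RW n K) := by
  unfold RW
  infer_instance

/-- the shape of a row word -/
def rsh {K : Finset ℕ} (ρ : RW n K) : YoungDiagram :=
  shp n (cnt (rex ρ.1) n) (ρ.2.1 n le_rfl)

theorem rsh_rowLen {K : Finset ℕ} (ρ : RW n K) (r : ℕ) :
    (rsh ρ).rowLen r = cnt (rex ρ.1) n r :=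
  shp_rowLen n _ _ (fun r => cnt_le _ _ r) (fun r hr => cnt_rex ρ.1 r hr) r

theorem rsh_card {K : Finset ℕ} (ρ : RW n K) : (rsh ρ).card = n := by
  unfold rsh
  rw [shp_card n _ _ (fun r => cnt_le _ _ r) (fun r hr => cnt_rex ρ.1 r hr)]
  unfold cnt
  rw [← card_eq_sum_card_fiberwise, card_range]
  intro j hj
  simp only [coe_range, Set.mem_Iio] at hj ⊢
  unfold rex
  rw [ext0_lt _ j hj]
  exact (ρ.1 ⟨j, hj⟩).2

theorem desSet_ext (g : Fin n → ℕ) :
    desSet g = (range (n - 1)).filter (fun x => ext0 g (x + 1) < ext0 g x) := by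
  ext x
  constructor
  · intro hx
    have h1 := desSet_sub g hx
    rw [mem_range] at h1
    have h2 := (mem_desSet g ⟨x, by omega⟩ ⟨x + 1, by omega⟩ rfl).1 hx
    rw [mem_filter, mem_range, ext0_lt g x (by omega), ext0_lt g (x + 1) (by omega)]
    exact ⟨h1, h2⟩
  · intro hx
    rw [mem_filter, mem_range] at hx
    rw [ext0_lt g x (by omega), ext0_lt g (x + 1) (by omega)] at hx
    exact (mem_desSet g ⟨x, by omega⟩ ⟨x + 1, by omega⟩ rfl).2 hx.2

theorem content_ext (g : Fin n → ℕ) (v : ℕ) :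
    content g v = ((range n).filter (fun j => ext0 g j = v)).card := by
  rw [content_apply]
  refine Finset.card_bij (fun x _ => (x : ℕ)) ?_ ?_ ?_
  · intro x hx
    rw [mem_filter] at hx
    rw [mem_filter, mem_range, ext0_fin]
    exact ⟨x.2, hx.2⟩
  · intro x _ y _ h
    exact Fin.ext h
  · intro j hj
    rw [mem_filter, mem_range] at hj
    refine ⟨⟨j, hj.1⟩, ?_, rfl⟩
    rw [mem_filter]
    refine ⟨mem_univ _, ?_⟩
    rw [← ext0_lt g j hj.1]
    exact hj.2

theorem lt_sum_succ (g : ℕ → ℕ) (n v : ℕ) :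
    ((range n).filter (fun j => g j < v + 1)).card =
      ((range n).filter (fun j => g j < v)).card + ((range n).filter (fun j => g j = v)).card := by
  rw [card_filter, card_filter, card_filter, ← Finset.sum_add_distrib]
  refine Finset.sum_congr rfl fun c _ => ?_
  split_ifs <;> omega

/-- the relation between words and pairs of tableaux -/
def Rel (N : ℕ) {K : Finset ℕ} (g : Fin n → ℕ) (ρ : RW n K)
    (T : SemistandardYoungTableau (rsh ρ)) : Prop :=
  tab (ext0 g) n = chn T ∧ RowOf N (ext0 g) (rex ρ.1) n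

theorem rel_weight {N : ℕ} {K : Finset ℕ} (g : Fin n → ℕ) (hg : ∀ j, g j < N) (ρ : RW n K)
    (T : SemistandardYoungTableau (rsh ρ)) (h : Rel N g ρ T) : weight T = content g := by
  have hg' : ∀ j, j < n → ext0 g j < N := fun j hj => by rw [ext0_lt g j hj]; exact hg _
  ext v
  have h1 := chn_sum T n (fun r hr => by rw [rsh_rowLen, cnt_rex ρ.1 r hr]) v
  rw [← h.1, tab_sum N (ext0 g) n n hg' le_rfl, tab_sum N (ext0 g) n n hg' le_rfl,
    lt_sum_succ] at h1
  rw [content_ext]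
  omega

theorem rel_desc {N : ℕ} (g : Fin n → ℕ) (hg : ∀ j, g j < N) (ρ : ℕ → ℕ)
    (h : RowOf N (ext0 g) ρ n) :
    desSet g = (range (n - 1)).filter (fun x => ρ x < ρ (x + 1)) := by
  have hg' : ∀ j, j < n → ext0 g j < N := fun j hj => by rw [ext0_lt g j hj]; exact hg _
  rw [desSet_ext]
  refine Finset.filter_congr fun x hx => ?_
  rw [mem_range] at hx
  exact rsk_desc N (ext0 g) ρ n hg' h x (by omega)

/-- from words to pairs -/
theorem rel_right {N : ℕ} {K : Finset ℕ} (g : Fin n → ℕ) (hg : ∀ j, g j < N)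
    (hK : desSet g = K) : ∃ (ρ : RW n K) (T : SemistandardYoungTableau (rsh ρ)), Rel N g ρ T := by
  have hg' : ∀ j, j < n → ext0 g j < N := fun j hj => by rw [ext0_lt g j hj]; exact hg _
  obtain ⟨ρ0, h0⟩ := exists_row N (ext0 g) n hg'
  have hrow : ∀ j, j < n → ρ0 j < n := by
    intro j hj
    by_contra hcon
    have h1 : cnt ρ0 n (ρ0 j) = 0 := by
      rw [← tab_top N (ext0 g) ρ0 n h0, tab_row_zero N (ext0 g) n hg' N (ρ0 j) (by omega)]
    unfold cnt at h1
    rw [card_eq_zero, filter_eq_empty_iff] at h1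
    exact h1 (mem_range.2 hj) rfl
  obtain ⟨ρ, hρ⟩ : ∃ ρ : Fin n → Fin n, ρ = fun j => ⟨ρ0 j, hrow j j.2⟩ := ⟨_, rfl⟩
  have hρ0 : ∀ j, j < n → rex ρ j = ρ0 j := by
    intro j hj
    unfold rex
    rw [ext0_lt _ j hj, hρ]
  have hR : RowOf N (ext0 g) (rex ρ) n := fun j hj => by rw [hρ0 j hj]; exact h0 j hj
  have hY : Yam (rex ρ) n := yam_of N (ext0 g) (rex ρ) n hg' hR
  have hA : (range (n - 1)).filter (fun x => rex ρ x < rex ρ (x + 1)) = K := by
    rw [← rel_desc g hg (rex ρ) hR, hK]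
  have hG := good_tab N (ext0 g) n hg'
  obtain ⟨P, hP⟩ : ∃ P : RW n K, P = ⟨ρ, hY, hA⟩ := ⟨_, rfl⟩
  have hPv : P.1 = ρ := by rw [hP]
  have hμ : ∀ r, (rsh P).rowLen r = tab (ext0 g) n N r := by
    intro r
    rw [rsh_rowLen, tab_top N (ext0 g) (rex ρ) n hR, hPv]
  refine ⟨P, mkT hG (rsh P) hμ, ?_, ?_⟩
  · rw [chn_mkT]
  · rw [hPv]
    exact hR

/-- from pairs to words -/
theorem rel_left {N : ℕ} {K : Finset ℕ} (ρ : RW n K) (T : SemistandardYoungTableau (rsh ρ))
    (hT : ∀ r c, c < (rsh ρ).rowLen r → T r c < N) :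
    ∃ g : Fin n → ℕ, (∀ j, g j < N) ∧ Rel N g ρ T := by
  obtain ⟨g, h1, h2, h3⟩ := rsk_surj N (rex ρ.1) n ρ.2.1 (chn T) (good_chn T N hT)
    (fun r => by rw [chn_top T N hT N le_rfl, rsh_rowLen])
  have hcon : ∀ j, j < n → ext0 (fun j : Fin n => g j) j = g j := by
    intro j hj
    rw [ext0_lt _ j hj]
  have htab : ∀ j, j ≤ n → tab (ext0 (fun j : Fin n => g j)) j = tab g j := by
    intro j hj
    exact tab_congr _ _ j fun t ht => hcon t (by omega)
  refine ⟨fun j => g j, fun j => h1 j j.2, ?_, ?_⟩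
  · rw [htab n le_rfl, h2]
  · intro j hj
    rw [htab j hj.le, hcon j hj]
    exact h3 j hj

theorem rel_inj_left {N : ℕ} {K : Finset ℕ} (g g' : Fin n → ℕ) (hg : ∀ j, g j < N)
    (hg' : ∀ j, g' j < N) (ρ : RW n K) (T : SemistandardYoungTableau (rsh ρ))
    (h : Rel N g ρ T) (h' : Rel N g' ρ T) : g = g' := by
  funext j
  have := rsk_inj N (ext0 g) (ext0 g') (rex ρ.1) n
    (fun j hj => by rw [ext0_lt g j hj]; exact hg _)
    (fun j hj => by rw [ext0_lt g' j hj]; exact hg' _) h.2 h'.2 (by rw [h.1, h'.1]) j j.2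
  rwa [ext0_fin, ext0_fin] at this

theorem rel_inj_right {N : ℕ} {K : Finset ℕ} (g : Fin n → ℕ)
    (ρ ρ' : RW n K) (T : SemistandardYoungTableau (rsh ρ)) (T' : SemistandardYoungTableau (rsh ρ'))
    (h : Rel N g ρ T) (h' : Rel N g ρ' T') :
    (⟨ρ, T⟩ : Σ ρ : RW n K, SemistandardYoungTableau (rsh ρ)) = ⟨ρ', T'⟩ := by
  have h1 : ρ = ρ' := by
    apply Subtype.ext
    funext j
    have h2 := h.2 j j.2
    have h3 := h'.2 j j.2
    apply Fin.ext
    unfold rex at h2 h3
    rw [ext0_fin] at h2 h3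
    rw [ext0_fin] at h2 h3
    omega
  subst h1
  have h2 : T = T' := chn_inj T T' (by rw [← h.1, ← h'.1])
  rw [h2]

/-- **the bijection** -/
theorem word_equiv (K : Finset ℕ) (a : ℕ →₀ ℕ) :
    Nonempty ({g : Fin n → ℕ // desSet g = K ∧ content g = a} ≃
      (Σ ρ : RW n K, {T : SemistandardYoungTableau (rsh ρ) // weight T = a})) := by
  obtain ⟨N, hN⟩ : ∃ N : ℕ, ∀ v, a v ≠ 0 → v < N := by
    refine ⟨a.support.sup id + 1, fun v hv => ?_⟩
    have := Finset.le_sup (f := id) (Finsupp.mem_support_iff.2 hv)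
    simp only [id] at this
    omega
  have hg : ∀ g : Fin n → ℕ, content g = a → ∀ j, g j < N := by
    intro g hga j
    apply hN
    have := content_pos g j
    rw [hga] at this
    omega
  have hT : ∀ (ρ : RW n K) (T : SemistandardYoungTableau (rsh ρ)), weight T = a →
      ∀ r c, c < (rsh ρ).rowLen r → T r c < N := by
    intro ρ T hTa r c hc
    apply hN
    have := weight_pos T r c hc
    rw [hTa] at this
    omega
  have h1 : ∀ g : {g : Fin n → ℕ // desSet g = K ∧ content g = a},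
      ∃ y : Σ ρ : RW n K, {T : SemistandardYoungTableau (rsh ρ) // weight T = a},
        Rel N g.1 y.1 y.2.1 := by
    rintro ⟨g, hgK, hga⟩
    obtain ⟨ρ, T, h⟩ := rel_right (N := N) g (hg g hga) hgK
    have h2 := rel_weight g (hg g hga) ρ T h
    exact ⟨⟨ρ, ⟨T, by rw [h2, hga]⟩⟩, h⟩
  have h2 : ∀ y : Σ ρ : RW n K, {T : SemistandardYoungTableau (rsh ρ) // weight T = a},
      ∃ g : {g : Fin n → ℕ // desSet g = K ∧ content g = a}, Rel N g.1 y.1 y.2.1 := by
    rintro ⟨ρ, T, hTa⟩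
    obtain ⟨g, hgN, h⟩ := rel_left ρ T (hT ρ T hTa)
    have h3 := rel_weight g hgN ρ T h
    have h4 := rel_desc g hgN (rex ρ.1) h.2
    exact ⟨⟨g, by rw [h4]; exact ρ.2.2, by rw [← h3, hTa]⟩, h⟩
  choose F hF using h1
  choose G hG using h2
  refine ⟨F, G, ?_, ?_⟩
  · intro g
    have e1 := hF g
    have e2 := hG (F g)
    apply Subtype.ext
    exact rel_inj_left _ _ (hg _ (G (F g)).2.2) (hg _ g.2.2) _ _ e2 e1
  · intro y
    have e1 := hG y
    have e2 := hF (G y)
    change F (G y) = y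
    generalize F (G y) = z at e2 ⊢
    generalize G y = g at e1 e2
    obtain ⟨ρ, T, hTa⟩ := y
    obtain ⟨ρ', T', hTa'⟩ := z
    have e3 := rel_inj_right _ _ _ _ _ e2 e1
    obtain ⟨e4, e5⟩ := Sigma.mk.inj e3
    simp only at e4
    subst e4
    have e6 := eq_of_heq e5
    simp only at e6
    subst e6
    rfl

/-- **ribbon functions are Schur positive** -/
theorem ribbon : S_Ribbon := by
  intro n K
  have : Fintype (RW n K) := Fintype.ofFinite _
  have h : wordSer n K = ∑ ρ : RW n K, schur (rsh ρ) := by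
    funext a
    obtain ⟨e⟩ := word_equiv (n := n) K a
    have hfin : Finite (Σ ρ : RW n K, {T : SemistandardYoungTableau (rsh ρ) // weight T = a}) :=
      Finite.of_equiv _ e
    have hfin2 : ∀ ρ : RW n K, Finite {T : SemistandardYoungTableau (rsh ρ) // weight T = a} := by
      intro ρ
      refine Finite.of_injective (β := Σ ρ : RW n K,
        {T : SemistandardYoungTableau (rsh ρ) // weight T = a}) (fun T => ⟨ρ, T⟩) ?_
      intro T T' hTT
      simpa using hTT
    change ((Nat.card {g : Fin n → ℕ // desSet g = K ∧ content g = a} : ℕ) : ℤ) =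
      MvPowerSeries.coeff a (∑ ρ : RW n K, schur (rsh ρ))
    rw [map_sum, Nat.card_congr e, Nat.card_sigma, Nat.cast_sum]
    rfl
  rw [h]
  refine sp_sum _ _ fun ρ _ => ?_
  refine ⟨Finsupp.single (rsh ρ) 1, ?_, ?_⟩
  · intro μ hμ
    have := Finsupp.support_single_subset hμ
    rw [mem_singleton] at this
    rw [this, rsh_card]
  · rw [Finsupp.sum_single_index, one_smul]
    rw [zero_smul]

end Pool.Agent.H140.VR
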