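import Pool.Agent.H140.VR.Defs

/-!
# Statement: Schur positivity of the generating function of words with given descents
-/

set_option autoImplicit false

namespace Pool.Agent.H140.VR

open scoped Classical

noncomputable section

/-- The generating function of the words of length `n` with descent set exactly `K`
(the ribbon Schur function of `K` if `K ⊆ {0,…,n-2}`, and `0` otherwise). -/
def wordSer (n : ℕ) (K : Finset ℕ) : Ser :=
  fun a => (Nat.card {g : Fin n → ℕ // desSet g = K ∧ content g = a} : ℤ)

/-- LEMMA JOB (RIBBON): ribbon Schur functions are Schur positive. -/
def S_Ribbon : Prop := ∀ (n : ℕ) (K : Finset ℕ), IsSchurPositive n (wordSer n K)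

end

end Pool.Agent.H140.VR
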